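import Pool.Agent.Lib.MP_d308c3_co.TT.Share
import Pool.Agent.Lib.MP_d308c3_co.K.Defs
import Pool.Agent.Lib.MP_d308c3_co.Wl
import Pool.Agent.Lib.MP_108739_an.F.Ent1

/-! The time tree: existence, light slots, small total overshoot. -/

namespace Pool.Agent.Lib.MP_d308c3_co.TT

open Finset Pool.Agent.Lib.MP_108739_an.F
open scoped Classical

/-- children of a split window, weighted by a power of their overshoot, have bounded share -/
def Shr {Ω : Type} (c : K.TT Ω) (L : ℕ) : Prop :=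
  ∀ (F : ℕ → ℕ → ℝ) (γ g C0 C : ℝ), (∀ i j, 0 ≤ F i j) → MonoF F → 0 < γ → γ ≤ g → g ≤ 2 →
    0 ≤ C0 → 0 ≤ C → Ex.PW F g C0 → K.LtW F c.tau (γ / 2) C → ∀ i < L, ∀ o, c.spl i o →
    ∀ V : Finset (ℕ × ℕ), (∀ v ∈ V, ∃ o', c.W i o' = c.W i o ∧ c.W (i + 1) o' = v) → ∑ v ∈ V,
      (c.thr (i + 1) / (v.2 - v.1 : ℕ)) ^ (γ / 4) * (F v.1 v.2 * ((v.2 - v.1 : ℕ) : ℝ) ^ g) ≤
        C3 γ C0 C * (F (c.lo i o) (c.hi i o) * c.N i o ^ g)

theorem thr_anti {Ω : Type} (c : K.TT Ω) (hS : 2 ≤ c.S) (ht : 0 ≤ c.th) {i j : ℕ} (h : i ≤ j) :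
    c.thr j ≤ c.thr i :=
  div_le_div_of_nonneg_left ht (by positivity) (pow_le_pow_right₀ (by nlinarith) h)

theorem exists_tt {Ω : Type} [Fintype Ω] (atm : Ω → ℕ) {M : ℕ} (hM : ∀ o, atm o < M)
    {τ : ℕ → ℝ} (hτ : StrictMono τ) {S : ℝ} (hS : 2 ≤ S) {L : ℕ}
    (hL : S ^ 2 ≤ M / (S ^ 2) ^ L) {Lt : ℕ} (hLt : 1 ≤ Lt) (w : Ω → ℝ) (hw : Nn w) :
    ∃ c : K.TT Ω, c.tau = τ ∧ c.th = M ∧ c.S = S ∧ c.Ok (72 * Lt) L ∧ (∀ o, c.W 0 o = (0, M)) ∧
      (∀ i o, c.lo i o ≤ atm o ∧ atm o < c.hi i o) ∧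
      (∀ i < L, (Lt : ℝ) * tot (res w (c.slot i)) ≤ 2 * tot w) ∧ Shr c L := by
  let ω : ℕ → ℝ := fun a => ∑ o ∈ univ.filter (fun o => atm o = a), w o
  have ω0 : ∀ a, 0 ≤ ω a := fun a => sum_nonneg fun o _ => hw o
  obtain ⟨l, r, cl, h0, P, St⟩ := exists_levels hτ ω ω0 hLt M fun i => M / (S ^ 2) ^ i
  let c : K.TT Ω := ⟨τ, fun i o => l i (atm o), fun i o => r i (atm o), fun i o => cl i (atm o),
    M, S⟩
  have p1 : ∀ i o, l i (atm o) ≤ atm o := fun i o => (P i).l_le _ (Nat.zero_le _) (hM o)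
  have p2 : ∀ i o, atm o < r i (atm o) := fun i o => (P i).lt_r _ (Nat.zero_le _) (hM o)
  have big : ∀ i ≤ L, S ^ 2 ≤ c.thr i := fun i hi =>
    hL.trans (thr_anti c hS (Nat.cast_nonneg M) hi)
  have one : ∀ i ≤ L, 1 ≤ c.thr i := fun i hi => le_trans (by nlinarith) (big i hi)
  have sp : ∀ i o, c.spl i o → Split τ (l i (atm o)) (r i (atm o)) (max 1 ⌊c.thr (i + 1)⌋₊)
      (72 * Lt) (l (i + 1)) (r (i + 1)) (cl i) := fun i o h => ((St i _ (hM o)).2 h).1
  have id : ∀ i o, ¬ c.spl i o → l (i + 1) (atm o) = l i (atm o) ∧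
      r (i + 1) (atm o) = r i (atm o) ∧ ¬ cl i (atm o) := fun i o h => (St i _ (hM o)).1 h
  have cs : ∀ i o, c.cls i o → c.spl i o := fun i o h => by_contra fun z => (id i o z).2.2 h
  refine ⟨c, rfl, rfl, rfl, ⟨hS, hL, hτ, fun i _ o => (p1 i o).trans_lt (p2 i o),
    fun i _ o => ?_, fun i _ o o' => ?_, fun i hi o => ?_, fun i _ o h => ?_,
    fun i _ o h h' => ?_, fun i _ o o' e h => ?_, fun i _ o o' h h' e d => ?_⟩,
    fun o => Prod.ext (h0 _).1 (h0 _).2, fun i o => ⟨p1 i o, p2 i o⟩, fun i hi => ?_,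
    fun F γ g C0 C a1 a2 a3 a4 a5 a6 a7 a8 a9 i hi o h V hV => ?_⟩
  · by_cases h : c.spl i o
    · exact ⟨(sp i o h).part.lo_le _ (p1 i o) (p2 i o), (sp i o h).part.r_le _ (p1 i o) (p2 i o)⟩
    · exact ⟨(id i o h).1.ge, (id i o h).2.1.le⟩
  · by_contra z
    simp only [not_or, not_le] at z
    obtain ⟨z1, z2, z3⟩ := z
    change l i (atm o') < r i (atm o) at z2
    change l i (atm o) < r i (atm o') at z3
    have a1 := p1 i o
    have a2 := p2 i o
    have a3 := p1 i o'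
    have a4 := p2 i o'
    have b1 := (P i).cons _ (Nat.zero_le _) (hM o) (max (l i (atm o)) (l i (atm o')))
      (le_max_left _ _) (by omega)
    have b2 := (P i).cons _ (Nat.zero_le _) (hM o') (max (l i (atm o)) (l i (atm o')))
      (le_max_right _ _) (by omega)
    exact z1 (Prod.ext (b1.1.symm.trans b2.1) (b1.2.symm.trans b2.2))
  · cases i with
    | zero => simp [K.TT.N, K.TT.thr, c, h0]
    | succ i =>
      by_cases h : c.spl i o
      · have a1 := (sp i o h).size _ (p1 i o) (p2 i o)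
        have a2 := one _ hi
        rw [max_eq_right (Nat.le_floor (by exact_mod_cast a2))] at a1
        exact le_trans (Nat.cast_le.2 a1) (Nat.floor_le (by linarith))
      · have a1 : c.N (i + 1) o = c.N i o := by
          simp only [K.TT.N, c, (id i o h).1, (id i o h).2.1]
        rw [a1]
        exact not_lt.1 h
  · exact Prod.ext (id i o h).1 (id i o h).2.1
  · exact (sp i o h).half _ (p1 i o) (p2 i o) (.inr (by
      have : ((2 : ℕ) : ℝ) ≤ c.N (i + 1) o := by exact_mod_cast h'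
      exact Nat.cast_le.1 this))
  · have e1 : l (i + 1) (atm o) = l (i + 1) (atm o') := congrArg Prod.fst e
    have e2 : r (i + 1) (atm o) = r (i + 1) (atm o') := congrArg Prod.snd e
    exact ((sp i o (cs i o h)).cl_cons _ (p1 i o) (p2 i o) _ (e1 ▸ p1 _ o') (e2 ▸ p2 _ o')).2 h
  · have e1 : l i (atm o) = l i (atm o') := congrArg Prod.fst e
    have e2 : r i (atm o) = r i (atm o') := congrArg Prod.snd e
    exact (sp i o (cs i o h)).sep _ (p1 i o) (p2 i o) _ (e1 ▸ p1 _ o') (e2 ▸ p2 _ o') h h' d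
  · have a1 := (St i).slot ω0 (P i)
    have a2 : ∑ a ∈ range M, ω a = tot w :=
      sum_fiberwise_of_maps_to (fun o _ => mem_range.2 (hM o)) w
    rw [a2] at a1
    refine le_trans (mul_le_mul_of_nonneg_left ?_ (Nat.cast_nonneg Lt)) a1
    rw [sum_fiberwise_eq_sum_filter, sum_filter]
    refine sum_le_sum fun o _ => ?_
    unfold res
    split_ifs with b1 b2
    · exact le_rfl
    · refine absurd (mem_filter.2 ⟨mem_range.2 (hM o), b1.1, b1.2.2, ?_⟩) b2
      have b3 : S ^ 2 ≤ S * c.N (i + 1) o := (big _ hi).trans b1.2.1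
      have b4 : ((2 : ℕ) : ℝ) ≤ c.N (i + 1) o := by
        push_cast
        nlinarith
      exact Nat.cast_le.1 b4
    · exact hw o
    · exact le_rfl
  · refine le_trans ?_ ((sp i o h).share (one _ hi) h a1 a2 a3 a4 a5 a6 a7 a8 a9)
    refine le_trans (sum_le_sum_of_subset_of_nonneg (t := ((Ico (l i (atm o)) (r i (atm o))).filter
      fun x => l (i + 1) x = x).image fun x => (x, r (i + 1) x)) (fun v hv => ?_)
      fun v _ _ => mul_nonneg (Real.rpow_nonneg (div_nonneg (by linarith [one _ hi])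
        (Nat.cast_nonneg _)) _) (mul_nonneg (a1 _ _) (by positivity)))
      (le_of_eq (sum_image fun x _ y _ e => congrArg Prod.fst e))
    obtain ⟨o', e, rfl⟩ := hV v hv
    have e1 : l i (atm o') = l i (atm o) := congrArg Prod.fst e
    have e2 : r i (atm o') = r i (atm o) := congrArg Prod.snd e
    have b2 : l i (atm o) ≤ atm o' := e1 ▸ p1 i o'
    have b3 : atm o' < r i (atm o) := e2 ▸ p2 i o'
    have b4 := p1 (i + 1) o'
    have b5 := (sp i o h).part.cons _ b2 b3 _ le_rfl (b4.trans_lt (p2 _ o'))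
    exact mem_image.2 ⟨l (i + 1) (atm o'), mem_filter.2 ⟨mem_Ico.2
      ⟨(sp i o h).part.lo_le _ b2 b3, b4.trans_lt b3⟩, b5.1⟩, Prod.ext rfl b5.2⟩

theorem back {Ω : Type} {c : K.TT Ω} {Λ : ℝ} {L : ℕ} (h : c.Ok Λ L) {i : ℕ} (hi : i < L)
    {o o' : Ω} (e : c.W (i + 1) o = c.W (i + 1) o') : c.W i o = c.W i o' := by
  have e1 : c.lo (i + 1) o = c.lo (i + 1) o' := congrArg Prod.fst e
  have e2 : c.hi (i + 1) o = c.hi (i + 1) o' := congrArg Prod.snd e
  have a1 := h.nest i hi o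
  have a2 := h.nest i hi o'
  have a3 := h.lt (i + 1) hi o
  rcases h.lami i hi.le o o' with d | d | d
  · exact d
  · omega
  · omega

theorem ovs_le {Ω : Type} [Fintype Ω] {c : K.TT Ω} {Λ : ℝ} {L M : ℕ} (h : c.Ok Λ L)
    (hs : Shr c L) (atm : Ω → ℕ) (h0 : ∀ o, c.W 0 o = (0, M))
    (hw : ∀ o, c.lo L o ≤ atm o ∧ atm o < c.hi L o)
    {F : ℕ → ℕ → ℝ} {γ g C0 C : ℝ} (hF : ∀ i j, 0 ≤ F i j) (hM : MonoF F) (hγ : 0 < γ)
    (hg : γ ≤ g) (hg2 : g ≤ 2) (hC0 : 1 ≤ C0) (hC : 0 ≤ C) (hP : Ex.PW F g C0)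
    (hL : K.LtW F c.tau (γ / 2) C)
    (hc : ∀ a, (#(univ.filter fun o => atm o = a) : ℝ) ≤ F a (a + 1)) :
    γ / 4 * ∑ o, c.ovs L o ≤ Fintype.card Ω *
      (lg (C0 * (F 0 M * (M : ℝ) ^ g) / Fintype.card Ω) + L * lg (C3 γ C0 C)) := by
  rcases isEmpty_or_nonempty Ω with he | ⟨⟨o0⟩⟩
  · simp
  have c1 := one_le_C3 hγ hC0 hC
  have S0 : 0 < c.S := by linarith [h.two]
  have th0 : 0 < c.th := by
    have a1 : 0 < c.th / (c.S ^ 2) ^ L := lt_of_lt_of_le (by positivity) h.big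
    exact (div_pos_iff_of_pos_right (by positivity)).1 a1
  have t0 : ∀ i, 0 < c.thr i := fun i => div_pos th0 (by positivity)
  have N0 : ∀ i ≤ L, ∀ o, 0 < c.N i o := fun i hi o =>
    Nat.cast_pos.2 (Nat.sub_pos_of_lt (h.lt i hi o))
  let Ψ : ℕ → ℕ × ℕ → ℝ := fun _ v => F v.1 v.2 * ((v.2 - v.1 : ℕ) : ℝ) ^ g
  let kap : ℕ → ℕ × ℕ → ℝ := fun k v => if ∃ o, c.W k o = v ∧ c.spl (k - 1) o then
    (c.thr k / (v.2 - v.1 : ℕ)) ^ (γ / 4) / C3 γ C0 C else 1
  have sd : ∀ i o o', c.W i o = c.W i o' → c.spl i o → c.spl i o' := fun i o o' e d => by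
    have e1 : c.lo i o = c.lo i o' := congrArg Prod.fst e
    have e2 : c.hi i o = c.hi i o' := congrArg Prod.snd e
    simpa only [K.TT.spl, K.TT.N, e1, e2] using d
  have k1 : ∀ i o, c.spl i o → kap (i + 1) (c.W (i + 1) o) =
      (c.thr (i + 1) / c.N (i + 1) o) ^ (γ / 4) / C3 γ C0 C := fun i o d => if_pos ⟨o, rfl, d⟩
  have k2 : ∀ i < L, ∀ o, ¬ c.spl i o → kap (i + 1) (c.W (i + 1) o) = 1 := fun i hi o d =>
    if_neg fun ⟨o', e, d'⟩ => d (sd i _ _ (back h hi e) d')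
  have kp : ∀ i < L, ∀ o ∈ (univ : Finset Ω), 0 < kap (i + 1) (c.W (i + 1) o) := fun i hi o _ => by
    by_cases d : c.spl i o
    · rw [k1 i o d]
      exact div_pos (Real.rpow_pos_of_pos (div_pos (t0 _) (N0 _ hi o)) _) (by linarith)
    · rw [k2 i hi o d]; exact one_pos
  have T : Wl.Tree univ c.W Ψ kap L := ⟨fun o _ o' _ => (h0 o).trans (h0 o').symm,
    fun i hi o _ o' _ e => back h hi e, fun i hi o ho => (kp i hi o ho).le, fun i hi o _ => by
      have sh : ∀ V : Finset (ℕ × ℕ), (∀ v ∈ V, ∃ o', c.W i o' = c.W i o ∧ c.W (i + 1) o' = v) →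
          ∑ v ∈ V, kap (i + 1) v * Ψ (i + 1) v ≤ Ψ i (c.W i o) := fun V hV => by
        by_cases d : c.spl i o
        · have a1 := hs F γ g C0 C hF hM hγ hg hg2 (by linarith) hC hP hL i hi o d V hV
          rw [← div_le_iff₀' (by linarith), sum_div] at a1
          refine le_trans (le_of_eq (sum_congr rfl fun v hv => ?_)) a1
          obtain ⟨o', b1, rfl⟩ := hV v hv
          rw [k1 i o' (sd i _ _ b1.symm d), div_mul_eq_mul_div]
          rfl
        · refine (sum_le_sum_of_subset_of_nonneg (t := {c.W (i + 1) o}) (fun v hv => ?_)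
            fun v hv _ => ?_).trans ?_
          · obtain ⟨o', e, rfl⟩ := hV v hv
            rw [mem_singleton, h.idle i hi o d, h.idle i hi o' fun z => d (sd i _ _ e z), e]
          · rw [mem_singleton.1 hv, k2 i hi o d, one_mul]
            exact mul_nonneg (hF _ _) (by positivity)
          · rw [sum_singleton, k2 i hi o d, one_mul, h.idle i hi o d]
      refine sh _ fun v hv => ?_
      simp only [mem_image, Wl.mem_fib] at hv
      obtain ⟨o', b1, b2⟩ := hv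
      exact ⟨o', b1.2, b2⟩⟩
  have leaf : ∀ o ∈ (univ : Finset Ω), ((Wl.fib univ (c.W L) o).card : ℝ) ≤
      C0 * Ψ L (c.W L o) := fun o _ => by
    have a0 := h.lt L le_rfl o
    have a1 := hP (c.hi L o - c.lo L o) (fun j => c.lo L o + j) (by omega)
      fun x y z => Nat.add_le_add_left z _
    have a2 : (Wl.fib univ (c.W L) o).card ≤
        ∑ j ∈ range (c.hi L o - c.lo L o), #(univ.filter fun o' => atm o' = c.lo L o + j) := by
      refine le_trans (card_le_card fun o' ho' => ?_) card_biUnion_le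
      have e := (Wl.mem_fib.1 ho').2
      have e1 : c.lo L o' = c.lo L o := congrArg Prod.fst e
      have e2 : c.hi L o' = c.hi L o := congrArg Prod.snd e
      have := hw o'
      exact mem_biUnion.2 ⟨atm o' - c.lo L o, mem_range.2 (by omega),
        mem_filter.2 ⟨mem_univ _, by omega⟩⟩
    refine le_trans (Nat.cast_le.2 a2) ?_
    rw [Nat.cast_sum]
    refine (sum_le_sum fun j _ => hc _).trans (a1.trans (le_of_eq ?_))
    simp only [Ψ, K.TT.W, add_zero, Nat.add_sub_cancel' a0.le]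
    ring
  have key := T.wl_log (mem_univ o0) (by linarith) leaf kp
  rw [h0 o0, card_univ] at key
  have l2 : 0 < Real.log 2 := Real.log_pos one_lt_two
  have step : ∀ o, ∀ k ∈ range L, γ / 4 * c.ov k o - lg (C3 γ C0 C) ≤
      Real.log (kap (k + 1) (c.W (k + 1) o)) / Real.log 2 := fun o k hk => by
    have hk' := mem_range.1 hk
    unfold K.TT.ov
    split_ifs with d
    · have a1 := div_pos (t0 (k + 1)) (N0 _ hk' o)
      rw [k1 k o d, Real.log_div (Real.rpow_pos_of_pos a1 _).ne' (by linarith), Real.log_rpow a1]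
      simp only [lg, Real.logb]
      exact le_of_eq (by ring)
    · rw [k2 k hk' o d, Real.log_one, zero_div]
      linarith [lg_nonneg c1]
  have s1 := sum_le_sum fun o (_ : o ∈ univ) => sum_le_sum (step o)
  simp only [sum_sub_distrib, ← mul_sum, ← sum_div, sum_const, card_range, card_univ,
    nsmul_eq_mul] at s1
  have s2 := div_le_div_of_nonneg_right key l2.le
  simp only [Ψ, Nat.sub_zero] at s2
  rw [mul_div_assoc] at s2
  simp only [K.TT.ovs, lg, Real.logb] at s1 ⊢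
  linarith

end Pool.Agent.Lib.MP_d308c3_co.TT
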