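import Pool.Agent.Lib.MP_d308c3_co.TT.Main
import Pool.Agent.Lib.MP_d308c3_co.LT.Tree

/-! The time tree of the items of a run. -/

namespace Pool.Agent.Lib.MP_d308c3_co.TT

open Finset Pool.Agent.Lib.MP_108739_an.F
open scoped Classical

/-- the lacunary bound for the windows of atoms of any run -/
theorem ltW {e : ℝ} (he : 0 < e) : ∃ C : ℝ, 1 ≤ C ∧ ∀ {Ω : Type} (G : K.Geo Ω) (Y : Finset K.Pt),
    Monotone G.s → K.LtW (G.Ph Y) (fun j => G.x.t (G.s j)) e C := by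
  obtain ⟨C, h1, h⟩ := LT.lac_windows.{0} he
  exact ⟨C, h1, fun G Y hs k n z hk hl => h Y Prod.fst Prod.snd G.x.t G.x.m (fun j => G.s (k j))
    n z (fun i j a b => hs (hk i j a b)) (fun _ _ _ a _ => G.x.mono.monotone a) hl⟩

theorem monoF {Ω : Type} (G : K.Geo Ω) (Y : Finset K.Pt) (hs : Monotone G.s) : MonoF (G.Ph Y) :=
  fun _ _ _ _ a b => Nat.cast_le.2 (Cut.Phi_mono (hs a) (hs b))

theorem card_atm {Ω : Type} [Fintype Ω] (G : K.Geo Ω)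
    (inj : ∀ o o', G.atm o = G.atm o' → G.pt o = G.pt o' → o = o')
    (mem : ∀ o, G.pt o ∈ Cut.Ch G.x.U G.x.X (G.s (G.atm o)) (G.s (G.atm o + 1))) (a : ℕ) :
    (#(univ.filter fun o => G.atm o = a) : ℝ) ≤ G.Ph G.x.X a (a + 1) := by
  refine Nat.cast_le.2 (le_trans (card_le_card_of_injOn G.pt (fun o ho => ?_)
    fun o ho o' ho' e => ?_) (Nat.le_add_right _ _))
  · have := mem o
    rwa [(mem_filter.1 (mem_coe.1 ho)).2] at this
  · exact inj o o' ((mem_filter.1 (mem_coe.1 ho)).2.trans (mem_filter.1 (mem_coe.1 ho')).2.symm) e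

theorem time_tree {γ C0 : ℝ} (hγ : 0 < γ) (hγ1 : γ ≤ 1) (hC0 : 1 ≤ C0) : ∃ C : ℝ, 0 ≤ C ∧
    ∀ {Ω : Type} [Fintype Ω] (G : K.Geo Ω) (ε S : ℝ) (M L Lt : ℕ), 0 ≤ ε → ε ≤ 1 → 2 ≤ S →
    S ^ 2 ≤ M / (S ^ 2) ^ L → 1 ≤ Lt → StrictMono G.s →
    (∀ o o', G.atm o = G.atm o' → G.pt o = G.pt o' → o = o') →
    (∀ o, G.pt o ∈ Cut.Ch G.x.U G.x.X (G.s (G.atm o)) (G.s (G.atm o + 1))) →
    (∀ o, G.atm o < M) → Ex.PW (G.Ph G.x.X) (γ + ε) C0 → 0 < G.Ph G.x.X 0 M →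
    (M : ℝ) ^ (γ - ε) * G.Ph G.x.X 0 M ≤ Fintype.card Ω →
    ∃ c : K.TT Ω, c.th = M ∧ c.S = S ∧ c.Ok (72 * Lt) L ∧ G.Ok c L ∧ (∀ o, c.W 0 o = (0, M)) ∧
      (∀ i < L, (Lt : ℝ) * tot (res (fun _ => 1) (c.slot i)) ≤ 2 * tot fun _ : Ω => 1) ∧
      γ * E (fun _ => 1) (c.ovs L) ≤ 4 * (2 * ε * lg M + C * (L + 1)) * tot fun _ : Ω => 1 := by
  obtain ⟨C, C1, hC⟩ := ltW (half_pos hγ)
  have c1 := one_le_C3 hγ hC0 (zero_le_one.trans C1)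
  have l1 := lg_nonneg c1
  have l2 := lg_nonneg hC0
  refine ⟨lg C0 + lg (C3 γ C0 C), by linarith, fun {Ω} _ G ε S M L Lt e0 e1 hS hL hLt hs inj mem
    hM hP hF hc => ?_⟩
  obtain ⟨c, c2, c3, c4, c5, c6, c7, c8, c9⟩ := exists_tt G.atm hM (G.x.mono.comp hs) hS hL hLt
    (fun _ => 1) fun _ => zero_le_one
  refine ⟨c, c3, c4, c5, ⟨hs, fun j => congrFun c2 j, inj, mem, fun i _ => c7 i⟩, c6, c8, ?_⟩
  have key := ovs_le c5 c9 G.atm c6 (c7 L) (F := G.Ph G.x.X) (fun _ _ => Nat.cast_nonneg _) (monoF G _ hs.monotone)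
    hγ (by linarith) (by linarith) hC0 (zero_le_one.trans C1) hP (c2 ▸ hC G _ hs.monotone)
    (card_atm G inj mem)
  have M0 : (0 : ℝ) < M := by
    have a1 : 0 < (M : ℝ) / (S ^ 2) ^ L := lt_of_lt_of_le (by positivity) hL
    exact (div_pos_iff_of_pos_right (by positivity)).1 a1
  have n0 : (0 : ℝ) < Fintype.card Ω := lt_of_lt_of_le (by positivity) hc
  have a1 : C0 * (G.Ph G.x.X 0 M * (M : ℝ) ^ (γ + ε)) / Fintype.card Ω ≤
      C0 * (M : ℝ) ^ (2 * ε) := by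
    rw [div_le_iff₀ n0, show γ + ε = 2 * ε + (γ - ε) by ring, Real.rpow_add M0]
    have := mul_le_mul_of_nonneg_left hc (by positivity : 0 ≤ C0 * (M : ℝ) ^ (2 * ε))
    linarith
  have a2 := lg_mono (by positivity) a1
  have a3 : lg (C0 * (M : ℝ) ^ (2 * ε)) = lg C0 + 2 * ε * lg M := by
    rw [lg_mul (by positivity) (by positivity)]
    simp only [lg, Real.logb_rpow_eq_mul_logb_of_pos M0]
  rw [a3] at a2
  have a4 := mul_le_mul_of_nonneg_left a2 n0.le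
  have a5 : 0 ≤ (Fintype.card Ω : ℝ) * (L * lg C0 + lg (C3 γ C0 C)) := by positivity
  simp only [E, tot, one_mul, sum_const, card_univ, nsmul_eq_mul, mul_one]
  linarith

end Pool.Agent.Lib.MP_d308c3_co.TT
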