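import Pool.Agent.Lib.MP_d308c3_co.LT.OneD

/-! Shells and slots around given marks, with the order facts needed for a tree of windows. -/

namespace Pool.Agent.Lib.MP_d308c3_co.TT

open Finset Pool.Agent.Lib.MP_d308c3_co.LT

variable {I : Type*}

/-- shells of ratio four with a light slot at the inner end -/
theorem exists_shells2 (X : Finset I) (w : I → ℝ) (hw : ∀ i ∈ X, 0 ≤ w i) (r : I → ℝ)
    (hr : ∀ i ∈ X, 0 < r i) {L : ℕ} (hL : 1 ≤ L) : ∃ (k : I → ℤ) (Z : Finset I), Z ⊆ X ∧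
      (L : ℝ) * ∑ i ∈ Z, w i ≤ ∑ i ∈ X, w i ∧
      (∀ i ∈ X, ∀ l ∈ X, k i = k l → r i ≤ 4 * r l) ∧
      (∀ i ∈ X, ∀ l ∈ X, i ∉ Z → k l < k i → r i ≤ 8 * L * (r i - r l)) ∧
      (∀ i ∈ X, ∀ l ∈ X, r i ≤ r l → k i ≤ k l) ∧
      (∀ i ∈ X, ∀ l ∈ X, k l + 2 ≤ k i → 2 * r l ≤ r i) ∧
      ∀ i ∈ X, ∀ l ∈ X, k i = k l → r i ≤ r l → l ∈ Z → i ∈ Z := by
  classical
  have L0 : (0 : ℝ) < L := by exact_mod_cast hL
  let f : I → ℤ := fun i => ⌊(L : ℝ) * (r i / (4 : ℝ) ^ Int.log 4 (r i) - 1)⌋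
  obtain ⟨h, hh, hl⟩ := exists_light X w hw f hL
  set θ : ℝ := 1 + h / L with hθ
  have hL' : (h : ℝ) + 1 ≤ L := by exact_mod_cast hh
  have e1 : (h : ℝ) / L * L = h := div_mul_cancel₀ _ L0.ne'
  have e2 : (1 : ℝ) / L * L = 1 := div_mul_cancel₀ _ L0.ne'
  have θ1 : 1 ≤ θ := by
    have : (0 : ℝ) ≤ h / L := by positivity
    linarith
  have θ2 : θ + 1 / L ≤ 2 := by
    have : (h : ℝ) / L + 1 / L ≤ 1 := by
      rw [← add_div, div_le_one L0]; exact hL'
    linarith
  have i0 : (0 : ℝ) < 1 / L := by positivity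
  let k : I → ℤ := fun i => Int.log 4 (r i / θ)
  have k1 : ∀ i ∈ X, (4 : ℝ) ^ k i * θ ≤ r i := fun i hi => by
    have := Int.zpow_log_le_self (R := ℝ) (b := 4) (by norm_num)
      (div_pos (hr i hi) (by linarith : 0 < θ))
    rw [le_div_iff₀ (by linarith)] at this
    simpa using this
  have k2 : ∀ i ∈ X, r i < 4 * ((4 : ℝ) ^ k i * θ) := fun i hi => by
    have := Int.lt_zpow_succ_log_self (R := ℝ) (b := 4) (by norm_num) (r i / θ)
    rw [div_lt_iff₀ (by linarith), zpow_add_one₀ (by norm_num)] at this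
    simp only [Nat.cast_ofNat] at this
    simp only [k]
    linarith
  have zf : ∀ i ∈ X, r i < (4 : ℝ) ^ k i * (θ + 1 / L) → f i = h := by
      intro i hi hn
      set c : ℝ := (4 : ℝ) ^ k i with hc
      have c0 : 0 < c := by positivity
      have a1 : c * θ ≤ r i := k1 i hi
      have hlog : Int.log 4 (r i) = k i := by
        apply le_antisymm
        · apply Int.le_of_lt_add_one
          rw [← Int.lt_zpow_iff_log_lt (by norm_num) (hr i hi), zpow_add_one₀ (by norm_num)]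
          simp only [Nat.cast_ofNat]
          nlinarith
        · rw [← Int.zpow_le_iff_le_log (by norm_num) (hr i hi)]
          simp only [Nat.cast_ofNat]
          nlinarith
      simp only [f, hlog]
      rw [Int.floor_eq_iff, ← hc]
      have b1 : θ ≤ r i / c := by rw [le_div_iff₀ c0]; linarith
      have b2 : r i / c < θ + 1 / L := by rw [div_lt_iff₀ c0]; linarith
      push_cast
      constructor <;> nlinarith
  refine ⟨k, X.filter fun i => r i < (4 : ℝ) ^ k i * (θ + 1 / L), filter_subset _ _,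
    le_trans (mul_le_mul_of_nonneg_left (sum_le_sum_of_subset_of_nonneg (fun i hi => ?_)
      fun i hi _ => hw i (mem_filter.1 hi).1) L0.le) hl, fun i hi l hl e => ?_,
    fun i hi l hl hz hk => ?_, fun i hi l hl c => ?_, fun i hi l hl c => ?_,
    fun i hi l hl e c hz => ?_⟩
  · exact mem_filter.2 ⟨(mem_filter.1 hi).1, zf i (mem_filter.1 hi).1 (mem_filter.1 hi).2⟩
  · have h1 := k2 i hi
    have h2 := k1 l hl
    rw [e] at h1
    linarith
  · set c : ℝ := (4 : ℝ) ^ k i with hc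
    have c0 : 0 < c := by positivity
    have h1 : c * (θ + 1 / L) ≤ r i := not_lt.1 fun hn => hz (mem_filter.2 ⟨hi, hn⟩)
    have h2 : r l < c * θ := by
      refine (k2 l hl).trans_le ?_
      have : (4 : ℝ) ^ (k l + 1) ≤ c := zpow_le_zpow_right₀ (by norm_num) (by omega)
      rw [zpow_add_one₀ (by norm_num)] at this
      nlinarith
    have h3 := k2 i hi
    rw [← hc] at h3
    have h4 : c * (1 / L) ≤ r i - r l := by linarith
    have h5 : c ≤ L * (r i - r l) := by
      have := mul_le_mul_of_nonneg_left h4 L0.le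
      nlinarith
    nlinarith
  · exact Int.log_mono_right (div_pos (hr i hi) (by linarith))
      (div_le_div_of_nonneg_right c (by linarith))
  · have h1 := k1 i hi
    have h2 := k2 l hl
    have h3 : (4 : ℝ) ^ (k l + 1 + 1) ≤ 4 ^ k i := zpow_le_zpow_right₀ (by norm_num) (by omega)
    rw [zpow_add_one₀ (by norm_num), zpow_add_one₀ (by norm_num)] at h3
    have h4 : (0 : ℝ) < 4 ^ k l := by positivity
    nlinarith
  · refine mem_filter.2 ⟨hi, ?_⟩
    rw [e]
    exact c.trans_lt (mem_filter.1 hz).2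

/-- sides, shells and two kinds of slots for values `x` between the marks `s` -/
structure Lab (X : Finset I) (x : I → ℝ) (β : I → ℕ) (s : ℕ → ℝ) (K : ℝ) (sd : I → Bool)
    (sig : I → ℝ) (k : I → ℤ) (Z1 Z2 : Finset I) : Prop where
  sub1 : Z1 ⊆ X
  sub2 : Z2 ⊆ X
  sigT : ∀ i, sd i = true → sig i = s (β i)
  sigF : ∀ i, sd i = false → sig i = s (β i + 1)
  side : ∀ i ∈ X, ∀ l ∈ X, β i = β l → x i ≤ x l → sd l = true → sd i = true
  mid0 : ∀ i ∈ Z1, sd i = false
  mid : ∀ i ∈ X, ∀ l ∈ Z1, β i = β l → x i ≤ x l → sd i = false → i ∈ Z1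
  rad : ∀ i ∈ X, 3 * |x i - sig i| ≤ 2 * (s (β i + 1) - s (β i))
  same : ∀ i ∈ X, ∀ l ∈ X, k i = k l → |x i - sig i| ≤ 4 * |x l - sig l|
  mono : ∀ i ∈ X, ∀ l ∈ X, |x i - sig i| ≤ |x l - sig l| → k i ≤ k l
  lac : ∀ i ∈ X, ∀ l ∈ X, k l + 2 ≤ k i → 2 * |x l - sig l| ≤ |x i - sig i|
  init : ∀ i ∈ X, ∀ l ∈ X, k i = k l → |x i - sig i| ≤ |x l - sig l| → l ∈ Z2 → i ∈ Z2
  far : ∀ i ∈ X, ∀ l ∈ X, i ∉ Z1 ∧ i ∉ Z2 → l ∉ Z1 ∧ l ∉ Z2 →
    (β i, sd i, k i) ≠ (β l, sd l, k l) →
    |x i - sig i| ≤ K * |x i - x l| ∧ |sig i - sig l| ≤ K * |x i - x l|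

theorem exists_lab (X : Finset I) (x : I → ℝ) (w : I → ℝ) (hw : ∀ i ∈ X, 0 ≤ w i) (β : I → ℕ)
    {s : ℕ → ℝ} (hs : Monotone s) (hb : ∀ i ∈ X, s (β i) < x i ∧ x i < s (β i + 1)) {L : ℕ}
    (hL : 1 ≤ L) : ∃ sd sig k Z1 Z2, Lab X x β s (8 * L) sd sig k Z1 Z2 ∧
      (L : ℝ) * ∑ i ∈ Z1, w i ≤ ∑ i ∈ X, w i ∧ (L : ℝ) * ∑ i ∈ Z2, w i ≤ ∑ i ∈ X, w i := by
  classical
  have L1 : (1 : ℝ) ≤ L := by exact_mod_cast hL
  let Δ : I → ℝ := fun i => s (β i + 1) - s (β i)
  have Δ0 : ∀ i ∈ X, 0 < Δ i := fun i hi => by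
    have := hb i hi
    simp only [Δ]; linarith [this.1, this.2]
  let f : I → ℤ := fun i => ⌊(L : ℝ) * (3 * ((x i - s (β i)) / Δ i) - 1)⌋
  obtain ⟨h, hh, hl⟩ := exists_light X w hw f hL
  have hL' : (h : ℝ) + 1 ≤ L := by exact_mod_cast hh
  have h0 : (0 : ℝ) ≤ h := by positivity
  let sd : I → Bool := fun i => decide (f i < h)
  let sig : I → ℝ := fun i => if f i < h then s (β i) else s (β i + 1)
  have fl : ∀ i ∈ X, f i < h → 3 * L * (x i - s (β i)) < (L + h) * Δ i := fun i hi c => by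
    have h1 : (L : ℝ) * (3 * ((x i - s (β i)) / Δ i) - 1) < h := by
      have := Int.floor_lt.1 c
      simpa using this
    have h2 := mul_lt_mul_of_pos_right h1 (Δ0 i hi)
    have h3 : (x i - s (β i)) / Δ i * Δ i = x i - s (β i) := div_mul_cancel₀ _ (Δ0 i hi).ne'
    have h4 : (L : ℝ) * (3 * ((x i - s (β i)) / Δ i) - 1) * Δ i =
        3 * L * ((x i - s (β i)) / Δ i * Δ i) - L * Δ i := by ring
    rw [h4, h3] at h2
    linarith
  have fr : ∀ i ∈ X, ∀ g : ℕ, (g : ℤ) ≤ f i → (L + g) * Δ i ≤ 3 * L * (x i - s (β i)) :=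
    fun i hi g c => by
    have h1 : (g : ℝ) ≤ (L : ℝ) * (3 * ((x i - s (β i)) / Δ i) - 1) := by
      have := Int.le_floor.1 c
      simpa using this
    have h2 := mul_le_mul_of_nonneg_right h1 (Δ0 i hi).le
    have h3 : (x i - s (β i)) / Δ i * Δ i = x i - s (β i) := div_mul_cancel₀ _ (Δ0 i hi).ne'
    have h4 : (L : ℝ) * (3 * ((x i - s (β i)) / Δ i) - 1) * Δ i =
        3 * L * ((x i - s (β i)) / Δ i * Δ i) - L * Δ i := by ring
    rw [h4, h3] at h2
    linarith
  have pl : ∀ i ∈ X, f i < h → x i - s (β i) ≤ 2 * (s (β i + 1) - x i) := fun i hi c => by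
    have h1 := fl i hi c
    have h2 := Δ0 i hi
    have h3 : (L : ℝ) * (3 * (x i - s (β i))) ≤ L * (2 * Δ i) := by nlinarith
    have h4 := le_of_mul_le_mul_left h3 (by linarith)
    simp only [Δ] at h4
    linarith
  have pr : ∀ i ∈ X, ¬ f i < h → s (β i + 1) - x i ≤ 2 * (x i - s (β i)) := fun i hi c => by
    have h1 := fr i hi h (not_lt.1 c)
    have h2 := Δ0 i hi
    have h3 : (L : ℝ) * Δ i ≤ L * (3 * (x i - s (β i))) := by nlinarith
    have h4 := le_of_mul_le_mul_left h3 (by linarith)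
    simp only [Δ] at h4
    linarith
  have ne : ∀ i ∈ X, x i ≠ sig i := fun i hi => by
    have := hb i hi
    simp only [sig]
    split_ifs
    · exact this.1.ne'
    · exact this.2.ne
  obtain ⟨k, Z, hZ, hZw, k1, k2, k3, k4, k5⟩ := exists_shells2 X w hw (fun i => |x i - sig i|)
    (fun i hi => abs_pos.2 (sub_ne_zero.2 (ne i hi))) hL
  have key : ∀ i ∈ X, ∀ l ∈ X, β i < β l → |x i - sig i| ≤ 3 * (x l - x i) ∧
      |x l - sig l| ≤ 3 * (x l - x i) ∧ |sig i - sig l| ≤ 3 * (x l - x i) := by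
    intro i hi l hl c
    have a1 := hb i hi
    have a2 := hb l hl
    have a3 : s (β i + 1) ≤ s (β l) := hs c
    have p1 := pl i hi
    have p2 := pr i hi
    have p3 := pl l hl
    have p4 := pr l hl
    simp only [sig]
    split_ifs with c1 c2 c2
    all_goals
      first | (have := p1 c1) | (have := p2 c1)
      first | (have := p3 c2) | (have := p4 c2)
      refine ⟨abs_le.2 ⟨?_, ?_⟩, abs_le.2 ⟨?_, ?_⟩, abs_le.2 ⟨?_, ?_⟩⟩ <;>
        linarith [a1.1, a1.2, a2.1, a2.2]
  have key2 : ∀ i ∈ X, ∀ l ∈ X, β i = β l → f i < h → h < f l →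
      0 < x l - x i ∧ Δ i ≤ 3 * L * (x l - x i) := by
    intro i hi l hl c c1 c2
    have a1 := fl i hi c1
    have a2 := fr l hl (h + 1) (by push_cast; omega)
    have a3 : Δ l = Δ i := by simp only [Δ, c]
    rw [a3, ← c] at a2
    push_cast at a2
    have a4 := Δ0 i hi
    have a5 : Δ i ≤ 3 * L * (x l - x i) := by nlinarith
    refine ⟨?_, a5⟩
    by_contra a6
    nlinarith
  have fm : ∀ i ∈ X, ∀ l, β i = β l → x i ≤ x l → f i ≤ f l := fun i hi l e c => by
    have e1 : Δ l = Δ i := by simp only [Δ, e]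
    refine Int.floor_le_floor (mul_le_mul_of_nonneg_left ?_ (by linarith))
    rw [e1, ← e]
    have := div_le_div_of_nonneg_right (sub_le_sub_right c (s (β i))) (Δ0 i hi).le
    linarith
  refine ⟨sd, sig, k, X.filter (fun i => f i = h), Z, ⟨filter_subset _ _, hZ, fun i c => ?_,
    fun i c => ?_, fun i hi l _ e c d => ?_, fun i hi => ?_, fun i hi l hl e c d => ?_,
    fun i hi => ?_, k1, k3, k4, k5, fun i hi l hl zi zl e => ?_⟩, hl, hZw⟩
  · exact if_pos (by simpa [sd] using c)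
  · exact if_neg (by simpa [sd] using c)
  · have := fm i hi l e c
    simp only [sd, decide_eq_true_eq] at d ⊢
    omega
  · have := (mem_filter.1 hi).2
    simp only [sd, decide_eq_false_iff_not]
    omega
  · have h1 := fm i hi l e c
    have h2 := (mem_filter.1 hl).2
    simp only [sd, decide_eq_false_iff_not] at d
    exact mem_filter.2 ⟨hi, by omega⟩
  · have a1 := hb i hi
    simp only [sig]
    split_ifs with c
    · rw [abs_of_pos (sub_pos.2 a1.1)]; linarith [pl i hi c]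
    · rw [abs_of_neg (sub_neg.2 a1.2)]; linarith [pr i hi c]
  · have fi : ¬ f i = h := fun d => zi.1 (mem_filter.2 ⟨hi, d⟩)
    have fl' : ¬ f l = h := fun d => zl.1 (mem_filter.2 ⟨hl, d⟩)
    have d0 := abs_nonneg (x i - x l)
    have a1 := hb i hi
    have a2 := hb l hl
    rcases lt_trichotomy (β i) (β l) with c | c | c
    · obtain ⟨b1, _, b3⟩ := key i hi l hl c
      have : x l - x i ≤ |x i - x l| := by rw [abs_sub_comm]; exact le_abs_self _
      constructor <;> nlinarith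
    · by_cases c1 : f i < h <;> by_cases c2 : f l < h
      · have e1 : sig i = sig l := by simp only [sig, c1, c2, if_true, c]
        have e2 : k i ≠ k l := fun d => e (by simp only [sd, c, c1, c2, d])
        have e3 : |(|x i - sig i| - |x l - sig l|)| ≤ |x i - x l| := by
          refine (abs_abs_sub_abs_le_abs_sub _ _).trans_eq ?_
          rw [e1]; congr 1; ring
        rw [abs_le] at e3
        refine ⟨?_, by rw [e1, sub_self, abs_zero]; positivity⟩
        rcases e2.lt_or_gt with d | d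
        · have := k2 l hl i hi zl.2 d
          have b0 := abs_nonneg (x l - sig l)
          have b1 : 0 ≤ |x l - sig l| - |x i - sig i| := by
            by_contra b; nlinarith [abs_pos.2 (sub_ne_zero.2 (ne l hl))]
          nlinarith
        · have := k2 i hi l hl zi.2 d
          nlinarith
      · obtain ⟨b1, b2⟩ := key2 i hi l hl c c1 (by omega)
        have : |x i - x l| = x l - x i := by rw [abs_sub_comm]; exact abs_of_pos b1
        simp only [sig, c1, c2, if_true, if_false, this, ← c]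
        simp only [Δ] at b2
        refine ⟨abs_le.2 ⟨?_, ?_⟩, abs_le.2 ⟨?_, ?_⟩⟩ <;> nlinarith [a1.1, a1.2]
      · obtain ⟨b1, b2⟩ := key2 l hl i hi c.symm c2 (by omega)
        have : |x i - x l| = x i - x l := abs_of_pos b1
        simp only [sig, c1, c2, if_true, if_false, this, c]
        simp only [Δ] at b2
        rw [c] at a1
        refine ⟨abs_le.2 ⟨?_, ?_⟩, abs_le.2 ⟨?_, ?_⟩⟩ <;> nlinarith [a1.1, a1.2]
      · have e1 : sig i = sig l := by simp only [sig, c1, c2, if_false, c]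
        have e2 : k i ≠ k l := fun d => e (by simp only [sd, c, c1, c2, d])
        have e3 : |(|x i - sig i| - |x l - sig l|)| ≤ |x i - x l| := by
          refine (abs_abs_sub_abs_le_abs_sub _ _).trans_eq ?_
          rw [e1]; congr 1; ring
        rw [abs_le] at e3
        refine ⟨?_, by rw [e1, sub_self, abs_zero]; positivity⟩
        rcases e2.lt_or_gt with d | d
        · have := k2 l hl i hi zl.2 d
          have b0 := abs_nonneg (x l - sig l)
          have b1 : 0 ≤ |x l - sig l| - |x i - sig i| := by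
            by_contra b; nlinarith [abs_pos.2 (sub_ne_zero.2 (ne l hl))]
          nlinarith
        · have := k2 i hi l hl zi.2 d
          nlinarith
    · obtain ⟨_, b2, b3⟩ := key l hl i hi c
      have := le_abs_self (x i - x l)
      rw [abs_sub_comm] at b3
      constructor <;> nlinarith

end Pool.Agent.Lib.MP_d308c3_co.TT
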