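import Pool.Agent.Lib.MP_d308c3_co.TT.Split

/-! The tree of windows on atoms: every level splits the windows above the next threshold. -/

namespace Pool.Agent.Lib.MP_d308c3_co.TT

open Finset
open scoped Classical

theorem Split.congr {τ : ℕ → ℝ} {lo hi q : ℕ} {Λ : ℝ} {l r l' r' : ℕ → ℕ} {cl cl' : ℕ → Prop}
    (h : Split τ lo hi q Λ l r cl)
    (e : ∀ i, lo ≤ i → i < hi → l' i = l i ∧ r' i = r i ∧ (cl' i ↔ cl i)) :
    Split τ lo hi q Λ l' r' cl' := by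
  have P := h.part
  have inn : ∀ i, lo ≤ i → i < hi → ∀ j, l' i ≤ j → j < r' i →
      (lo ≤ j ∧ j < hi) ∧ l i ≤ j ∧ j < r i := fun i a b j c d => by
    have := P.lo_le i a b
    have := P.r_le i a b
    have := e i a b
    omega
  refine ⟨⟨fun i a b => (e i a b).1 ▸ P.lo_le i a b, fun i a b => (e i a b).1 ▸ P.l_le i a b,
    fun i a b => (e i a b).2.1 ▸ P.lt_r i a b, fun i a b => (e i a b).2.1 ▸ P.r_le i a b,
    fun i a b j c d => ?_⟩, fun i a b j c d => ?_, fun i a b => ?_, fun i a b c => ?_,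
    fun i a b j c d x y z => ?_, fun F g C0 ε C a1 a2 a3 a4 a5 a6 a7 a8 S a9 => ?_⟩
  · obtain ⟨⟨x, y⟩, z, u⟩ := inn i a b j c d
    rw [(e j x y).1, (e j x y).2.1, (e i a b).1, (e i a b).2.1]
    exact P.cons i a b j z u
  · obtain ⟨⟨x, y⟩, z, u⟩ := inn i a b j c d
    rw [(e j x y).2.2, (e i a b).2.2]
    exact h.cl_cons i a b j z u
  · rw [(e i a b).1, (e i a b).2.1]
    exact h.size i a b
  · rw [(e i a b).1, (e i a b).2.1, (e i a b).2.2] at *
    exact h.half i a b c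
  · rw [(e i a b).2.1, (e j c d).1] at z
    rw [(e i a b).1, (e i a b).2.1, (e j c d).1, (e j c d).2.1]
    exact h.sep i a b j c d ((e i a b).2.2.1 x) ((e j c d).2.2.1 y) z
  · refine le_trans (le_of_eq (sum_congr (filter_congr fun x hx => ?_) fun x hx => ?_))
      (h.ovr F g C0 ε C a1 a2 a3 a4 a5 a6 a7 a8 S a9)
    · rw [(e x (mem_Ico.1 hx).1 (mem_Ico.1 hx).2).1, (e x (mem_Ico.1 hx).1 (mem_Ico.1 hx).2).2.1]
    · have := mem_Ico.1 (mem_filter.1 hx).1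
      rw [(e x this.1 this.2).2.1]

/-- the step from the partition `l, r` to the partition `l', r'` -/
def Step (τ : ℕ → ℝ) (w : ℕ → ℝ) (M L : ℕ) (th : ℝ) (l r l' r' : ℕ → ℕ) (cl : ℕ → Prop) : Prop :=
  ∀ a < M, (¬ th < (r a - l a : ℕ) → l' a = l a ∧ r' a = r a ∧ ¬ cl a) ∧
    (th < (r a - l a : ℕ) → Split τ (l a) (r a) (max 1 ⌊th⌋₊) (72 * L) l' r' cl ∧
      (L : ℝ) * ∑ i ∈ (Ico (l a) (r a)).filter (fun i => ¬ cl i ∧ 2 ≤ r' i - l' i), w i ≤
        2 * ∑ i ∈ Ico (l a) (r a), w i)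

theorem exists_step {τ : ℕ → ℝ} (hτ : StrictMono τ) (w : ℕ → ℝ) (hw : ∀ i, 0 ≤ w i) {L : ℕ}
    (hL : 1 ≤ L) (M : ℕ) (th : ℝ) {l r : ℕ → ℕ} (P : Part 0 M l r) :
    ∃ l' r' cl, Part 0 M l' r' ∧ Step τ w M L th l r l' r' cl := by
  choose f g c hs using fun x y => exists_split hτ x y (le_max_left 1 ⌊th⌋₊) w hw hL
  let l' : ℕ → ℕ := fun a => if th < (r a - l a : ℕ) then f (l a) (r a) a else l a
  let r' : ℕ → ℕ := fun a => if th < (r a - l a : ℕ) then g (l a) (r a) a else r a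
  let cl : ℕ → Prop := fun a => th < (r a - l a : ℕ) ∧ c (l a) (r a) a
  have e : ∀ a < M, th < (r a - l a : ℕ) → ∀ i, l a ≤ i → i < r a →
      l' i = f (l a) (r a) i ∧ r' i = g (l a) (r a) i ∧ (cl i ↔ c (l a) (r a) i) := by
    intro a ha h i x y
    obtain ⟨e1, e2⟩ := P.cons a (Nat.zero_le a) ha i x y
    simp only [l', r', cl, e1, e2, h, if_true, true_and]
  have st : Step τ w M L th l r l' r' cl := fun a ha => ⟨fun h => by
    simp only [l', r', cl, h, if_false, false_and, not_false_eq_true, and_self], fun h =>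
    ⟨(hs _ _).1.congr (e a ha h), by
      refine le_trans (le_of_eq (congrArg _ (sum_congr ?_ fun _ _ => rfl))) (hs (l a) (r a)).2
      ext i
      simp only [mem_filter]
      refine and_congr_right fun hi => ?_
      obtain ⟨e1, e2, e3⟩ := e a ha h i (mem_Ico.1 hi).1 (mem_Ico.1 hi).2
      rw [e1, e2, e3]⟩⟩
  refine ⟨l', r', cl, ⟨fun i _ _ => Nat.zero_le _, fun i a b => ?_, fun i a b => ?_,
    fun i a b => ?_, fun i a b j x y => ?_⟩, st⟩
  all_goals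
    have p1 := P.l_le i a b
    have p2 := P.lt_r i a b
    have p3 := P.r_le i a b
    by_cases h : th < (r i - l i : ℕ)
  · exact ((st i b).2 h).1.part.l_le i p1 p2
  · rw [((st i b).1 h).1]; exact p1
  · exact ((st i b).2 h).1.part.lt_r i p1 p2
  · rw [((st i b).1 h).2.1]; exact p2
  · exact (((st i b).2 h).1.part.r_le i p1 p2).trans p3
  · rw [((st i b).1 h).2.1]; exact p3
  · exact ((st i b).2 h).1.part.cons i p1 p2 j x y
  · obtain ⟨e1, e2, _⟩ := (st i b).1 h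
    rw [e1] at x ⊢
    rw [e2] at y ⊢
    obtain ⟨e3, e4⟩ := P.cons i a b j x y
    obtain ⟨e5, e6, _⟩ := (st j (by omega)).1 (by rw [e3, e4]; exact h)
    exact ⟨e5.trans e3, e6.trans e4⟩

theorem exists_levels {τ : ℕ → ℝ} (hτ : StrictMono τ) (w : ℕ → ℝ) (hw : ∀ i, 0 ≤ w i) {L : ℕ}
    (hL : 1 ≤ L) (M : ℕ) (th : ℕ → ℝ) : ∃ (l r : ℕ → ℕ → ℕ) (cl : ℕ → ℕ → Prop),
      (∀ a, l 0 a = 0 ∧ r 0 a = M) ∧ (∀ i, Part 0 M (l i) (r i)) ∧
      ∀ i, Step τ w M L (th (i + 1)) (l i) (r i) (l (i + 1)) (r (i + 1)) (cl i) := by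
  let X := {p : (ℕ → ℕ) × (ℕ → ℕ) // Part 0 M p.1 p.2}
  have key : ∀ (i : ℕ) (p : X), ∃ (p' : X) (cl : ℕ → Prop),
      Step τ w M L (th (i + 1)) p.1.1 p.1.2 p'.1.1 p'.1.2 cl := fun i p => by
    obtain ⟨l', r', cl, h1, h2⟩ := exists_step hτ w hw hL M (th (i + 1)) p.2
    exact ⟨⟨(l', r'), h1⟩, cl, h2⟩
  choose nx cl hn using key
  let x0 : X := ⟨(fun _ => 0, fun _ => M), ⟨fun _ _ _ => le_rfl, fun i _ _ => Nat.zero_le i,
    fun _ _ h => h, fun _ _ _ => le_rfl, fun _ _ _ _ _ _ => ⟨rfl, rfl⟩⟩⟩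
  let sq : ℕ → X := fun n => Nat.rec x0 nx n
  exact ⟨fun i => (sq i).1.1, fun i => (sq i).1.2, fun i => cl i (sq i), fun _ => ⟨rfl, rfl⟩,
    fun i => (sq i).2, fun i => hn i (sq i)⟩

/-- slots are light on every level -/
theorem Step.slot {τ : ℕ → ℝ} {w : ℕ → ℝ} (hw : ∀ i, 0 ≤ w i) {M L : ℕ} {th : ℝ}
    {l r l' r' : ℕ → ℕ} {cl : ℕ → Prop} (P : Part 0 M l r) (h : Step τ w M L th l r l' r' cl) :
    (L : ℝ) * ∑ i ∈ (range M).filter (fun i => th < (r i - l i : ℕ) ∧ ¬ cl i ∧ 2 ≤ r' i - l' i),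
      w i ≤ 2 * ∑ i ∈ range M, w i := by
  have mp : ∀ i ∈ range M, l i ∈ (range M).filter fun x => l x = x := fun i hi => by
    have b := mem_range.1 hi
    have p1 := P.l_le i (Nat.zero_le i) b
    have p2 := P.lt_r i (Nat.zero_le i) b
    exact mem_filter.2 ⟨mem_range.2 (by omega), (P.cons i (Nat.zero_le i) b _ le_rfl (by omega)).1⟩
  rw [sum_filter, ← sum_fiberwise_of_maps_to mp, ← sum_fiberwise_of_maps_to mp w, mul_sum, mul_sum]
  refine sum_le_sum fun x hx => ?_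
  obtain ⟨x1, x2⟩ := mem_filter.1 hx
  have b := mem_range.1 x1
  have p3 := P.r_le x (Nat.zero_le x) b
  have e : (range M).filter (fun i => l i = x) = Ico (l x) (r x) := by
    ext i
    rw [mem_filter, mem_range, mem_Ico]
    refine ⟨fun ⟨i1, i2⟩ => ?_, fun ⟨i1, i2⟩ =>
      ⟨by omega, (P.cons x (Nat.zero_le x) b i i1 i2).1.trans x2⟩⟩
    have p1 := P.l_le i (Nat.zero_le i) i1
    have p2 := P.lt_r i (Nat.zero_le i) i1
    have := (P.cons i (Nat.zero_le i) i1 x (by omega) (by omega)).2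
    omega
  rw [e]
  by_cases d : th < (r x - l x : ℕ)
  · refine le_trans (mul_le_mul_of_nonneg_left ?_ (Nat.cast_nonneg L)) ((h x b).2 d).2
    rw [sum_filter]
    refine sum_le_sum fun i _ => ?_
    have := hw i
    split_ifs with a1 a2 <;> first | exact le_rfl | exact this | exact absurd a1.2 a2
  · rw [sum_eq_zero fun i hi => if_neg fun z => d ?_, mul_zero]
    · exact mul_nonneg zero_le_two (sum_nonneg fun i _ => hw i)
    · obtain ⟨e1, e2⟩ := P.cons x (Nat.zero_le x) b i (mem_Ico.1 hi).1 (mem_Ico.1 hi).2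
      rw [← e1, ← e2]
      exact z.1

end Pool.Agent.Lib.MP_d308c3_co.TT
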