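import Pool.Agent.Lib.MP_d308c3_co.Expo

/-! Windows cut out by an order convex labelling of states; sums over lacunary families. -/

namespace Pool.Agent.Lib.MP_d308c3_co.TT

open Finset

/-- `F` is almost additive over windows between lacunary times -/
def Lac (τ : ℕ → ℝ) (F : ℕ → ℕ → ℝ) (ε C : ℝ) : Prop :=
  ∀ (k : ℕ → ℕ) (S : ℕ) (c : ℝ), (∀ i j, i ≤ j → j ≤ S → k i ≤ k j) →
    (τ (k S) < c ∧ ∀ j < S, 2 * (c - τ (k (j + 1))) ≤ c - τ (k j)) ∨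
      (c < τ (k 0) ∧ ∀ j < S, 2 * (τ (k j) - c) ≤ τ (k (j + 1)) - c) →
    ∑ j ∈ range S, F (k j) (k (j + 1)) ≤ C * (S : ℝ) ^ ε * F (k 0) (k S)

/-- `F` is monotone in the window -/
def MonoF (F : ℕ → ℕ → ℝ) : Prop := ∀ a b a' b', a ≤ a' → b' ≤ b → F a' b' ≤ F a b

theorem lac_sum {τ : ℕ → ℝ} {F : ℕ → ℕ → ℝ} {ε C : ℝ} (hF : ∀ i j, 0 ≤ F i j) (hM : MonoF F)
    (hL : Lac τ F ε C) (hε : 0 ≤ ε) (hC : 0 ≤ C) {A : Finset ℕ} {ρ : ℕ → ℕ} {lo hi : ℕ} {c : ℝ}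
    (h1 : ∀ x ∈ A, lo ≤ x ∧ x ≤ hi ∧ ρ x ≤ hi) (h2 : ∀ x ∈ A, ∀ y ∈ A, x < y → ρ x ≤ y)
    (h3 : ((∀ x ∈ A, τ x < c) ∧ ∀ x ∈ A, ∀ y ∈ A, x < y → 2 * (c - τ y) ≤ c - τ x) ∨
      ((∀ x ∈ A, c < τ x) ∧ ∀ x ∈ A, ∀ y ∈ A, x < y → 2 * (τ x - c) ≤ τ y - c)) :
    ∑ x ∈ A, F x (ρ x) ≤ (C * (A.card : ℝ) ^ ε + 1) * F lo hi := by
  rcases A.eq_empty_or_nonempty with rfl | hne
  · simp only [sum_empty]
    exact mul_nonneg (by positivity) (hF _ _)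
  obtain ⟨n, hn⟩ : ∃ n, A.card = n + 1 := ⟨A.card - 1, by have := card_pos.2 hne; omega⟩
  let e := A.orderEmbOfFin hn
  let k : ℕ → ℕ := fun j => e ⟨min j n, Nat.lt_succ_of_le (min_le_right _ _)⟩
  have km : ∀ j, k j ∈ A := fun j => A.orderEmbOfFin_mem hn _
  have kl : ∀ j < n, k j < k (j + 1) := fun j hj => e.strictMono (by
    simp only [Fin.mk_lt_mk]; omega)
  have e1 : ∑ x ∈ A, F x (ρ x) = ∑ j ∈ range (n + 1), F (k j) (ρ (k j)) := by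
    rw [← A.map_orderEmbOfFin_univ hn, sum_map, sum_range]
    refine sum_congr rfl fun j _ => ?_
    have : (⟨min j n, Nat.lt_succ_of_le (min_le_right _ _)⟩ : Fin (n + 1)) = j :=
      Fin.ext (min_eq_left (Nat.le_of_lt_succ j.2))
    simp only [k, this]
    rfl
  have a1 := hL k n c (fun i j h _ => e.monotone (by simp only [Fin.mk_le_mk]; omega))
    (h3.imp (fun h => ⟨h.1 _ (km _), fun j hj => h.2 _ (km _) _ (km _) (kl j hj)⟩)
      fun h => ⟨h.1 _ (km _), fun j hj => h.2 _ (km _) _ (km _) (kl j hj)⟩)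
  have a2 : ∑ j ∈ range n, F (k j) (ρ (k j)) ≤ ∑ j ∈ range n, F (k j) (k (j + 1)) :=
    sum_le_sum fun j hj => hM _ _ _ _ le_rfl (h2 _ (km _) _ (km _) (kl j (mem_range.1 hj)))
  have a3 := hM lo hi (k n) (ρ (k n)) (h1 _ (km _)).1 (h1 _ (km _)).2.2
  have a4 := hM lo hi (k 0) (k n) (h1 _ (km _)).1 (h1 _ (km _)).2.1
  have a5 : (n : ℝ) ^ ε ≤ (A.card : ℝ) ^ ε :=
    Real.rpow_le_rpow (by positivity) (by rw [hn]; push_cast; linarith) hε
  have a6 : C * (n : ℝ) ^ ε * F (k 0) (k n) ≤ C * (A.card : ℝ) ^ ε * F lo hi :=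
    mul_le_mul (mul_le_mul_of_nonneg_left a5 hC) a4 (hF _ _) (by positivity)
  rw [e1, sum_range_succ]
  linarith

/-- the atom `i` lies in the window `[l i, r i]`; these windows partition `[lo, hi]` -/
structure Part (lo hi : ℕ) (l r : ℕ → ℕ) : Prop where
  lo_le : ∀ i, lo ≤ i → i < hi → lo ≤ l i
  l_le : ∀ i, lo ≤ i → i < hi → l i ≤ i
  lt_r : ∀ i, lo ≤ i → i < hi → i < r i
  r_le : ∀ i, lo ≤ i → i < hi → r i ≤ hi
  cons : ∀ i, lo ≤ i → i < hi → ∀ j, l i ≤ j → j < r i → l j = l i ∧ r j = r i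

theorem Part.r_le_of_lt {lo hi : ℕ} {l r : ℕ → ℕ} (h : Part lo hi l r) {x y : ℕ} (hx : lo ≤ x)
    (hxy : x < y) (hy : y < hi) (ey : l y = y) : r x ≤ y := by
  by_contra c
  have h1 := h.l_le x hx (hxy.trans hy)
  have h2 := (h.cons x hx (hxy.trans hy) y (by omega) (by omega)).1
  omega

theorem Part.dis {lo hi : ℕ} {l r : ℕ → ℕ} (h : Part lo hi l r) {A : Finset ℕ} {a b : ℕ}
    (hA : ∀ x ∈ A, lo ≤ x ∧ x < hi ∧ l x = x) (hb : ∀ x ∈ A, a ≤ x ∧ r x ≤ b) :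
    Ex.Dis A (fun x => x) r a b :=
  ⟨fun x hx => h.lt_r x (hA x hx).1 (hA x hx).2.1, fun x hx => (hb x hx).1,
    fun x hx => (hb x hx).2, fun x hx y hy c => c.lt_or_gt.imp
      (fun d => h.r_le_of_lt (hA x hx).1 d (hA y hy).2.1 (hA y hy).2.2)
      fun d => h.r_le_of_lt (hA y hy).1 d (hA x hx).2.1 (hA x hx).2.2⟩

theorem exists_pieces {Λ : Type*} (π : ℕ → Λ) (lo hi : ℕ)
    (hc : ∀ a b c, lo ≤ a → a ≤ b → b ≤ c → c ≤ hi → π a = π c → π b = π a) :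
    ∃ l r, Part lo hi l r ∧ ∀ i, lo ≤ i → i < hi →
      (π i = π (i + 1) → ∀ s, lo ≤ s → s ≤ hi → (π s = π i ↔ l i ≤ s ∧ s ≤ r i)) ∧
      (π i ≠ π (i + 1) → l i = i ∧ r i = i + 1) := by
  classical
  let fs : ℕ → ℕ := fun i => sInf {s | lo ≤ s ∧ π s = π i}
  let ls : ℕ → ℕ := fun i => sSup {s | s ≤ hi ∧ π s = π i}
  have bd : ∀ i, BddAbove {s | s ≤ hi ∧ π s = π i} := fun i => ⟨hi, fun s h => h.1⟩
  have f1 : ∀ i, lo ≤ i → lo ≤ fs i ∧ π (fs i) = π i := fun i h =>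
    Nat.sInf_mem (s := {s | lo ≤ s ∧ π s = π i}) ⟨i, h, rfl⟩
  have f2 : ∀ i s, lo ≤ s → π s = π i → fs i ≤ s := fun i s h h' =>
    Nat.sInf_le (s := {s | lo ≤ s ∧ π s = π i}) ⟨h, h'⟩
  have g1 : ∀ i, i ≤ hi → ls i ≤ hi ∧ π (ls i) = π i := fun i h =>
    Nat.sSup_mem (s := {s | s ≤ hi ∧ π s = π i}) ⟨i, h, rfl⟩ (bd i)
  have g2 : ∀ i s, s ≤ hi → π s = π i → s ≤ ls i := fun i s h h' => le_csSup (bd i) ⟨h, h'⟩
  have key : ∀ i, lo ≤ i → i ≤ hi → ∀ s, fs i ≤ s → s ≤ ls i → π s = π i := fun i h h' s c d =>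
    (hc _ _ _ (f1 i h).1 c d (g1 i h').1 ((f1 i h).2.trans (g1 i h').2.symm)).trans (f1 i h).2
  refine ⟨fun i => if π i = π (i + 1) then fs i else i,
    fun i => if π i = π (i + 1) then ls i else i + 1, ⟨fun i h h' => ?_, fun i h h' => ?_,
      fun i h h' => ?_, fun i h h' => ?_, fun i h h' j => ?_⟩, fun i h h' => ⟨fun e s c d => ?_,
      fun e => ?_⟩⟩
  · split_ifs
    · exact (f1 i h).1
    · exact h
  · split_ifs
    · exact f2 i i h rfl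
    · exact le_rfl
  · split_ifs with e
    · exact g2 i (i + 1) h' e.symm
    · exact Nat.lt_succ_self i
  · split_ifs
    · exact (g1 i h'.le).1
    · exact h'
  · by_cases e : π i = π (i + 1)
    · simp only [e, if_true]
      intro c d
      have a1 := key i h h'.le j c d.le
      have a2 := key i h h'.le (j + 1) (c.trans (Nat.le_succ j)) d
      rw [if_pos (a1.trans a2.symm), if_pos (a1.trans a2.symm)]
      simp only [fs, ls, a1, and_self]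
    · simp only [e, if_false]
      intro c d
      obtain rfl : j = i := by omega
      simp only [e, if_false, and_self]
  · simp only [if_pos e]
    exact ⟨fun a => ⟨f2 i s c a, g2 i s d a⟩, fun a => key i h h'.le s a.1 a.2⟩
  · simp only [if_neg e, and_self]

end Pool.Agent.Lib.MP_d308c3_co.TT
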