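import Pool.Agent.Lib.MP_d308c3_co.TT.Level

/-! Children far below the threshold have a small share. -/

namespace Pool.Agent.Lib.MP_d308c3_co.TT

open Finset
open scoped Classical

/-- summation over dyadic classes of a ratio -/
theorem dyadic {ι : Type} (A : Finset ι) (f ρ : ι → ℝ) (hf : ∀ x ∈ A, 0 ≤ f x)
    (hρ : ∀ x ∈ A, 1 ≤ ρ x) {B e d : ℝ} (hB : 0 ≤ B) (he : 0 ≤ e) (hd : e < d)
    (h : ∀ S : ℝ, 1 ≤ S → ∑ x ∈ A.filter (fun x => ρ x ≤ S), f x ≤ B * S ^ e) :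
    ∑ x ∈ A, f x * ρ x ^ (-d) ≤ B * 2 ^ e / (1 - 2 ^ (e - d)) := by
  have hq0 : (0 : ℝ) < 2 ^ (e - d) := Real.rpow_pos_of_pos (by norm_num) _
  have hq1 : (2 : ℝ) ^ (e - d) < 1 :=
    Real.rpow_lt_one_of_one_lt_of_neg (by norm_num) (by linarith)
  have hex : ∀ x, ∃ c : ℕ, x ∈ A → (2 : ℝ) ^ c ≤ ρ x ∧ ρ x < 2 ^ (c + 1) := fun x => by
    by_cases hx : x ∈ A
    · obtain ⟨c, h1, h2⟩ := exists_nat_pow_near (hρ x hx) (one_lt_two (α := ℝ))
      exact ⟨c, fun _ => ⟨h1, h2⟩⟩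
    · exact ⟨0, fun z => absurd z hx⟩
  choose c hc using hex
  have cl : ∀ a : ℕ, ∑ x ∈ A.filter (fun x => c x = a), f x * ρ x ^ (-d) ≤
      B * 2 ^ e * ((2 : ℝ) ^ (e - d)) ^ a := fun a => by
    have h1 : ∑ x ∈ A.filter (fun x => c x = a), f x * ρ x ^ (-d) ≤
        ∑ x ∈ A.filter (fun x => c x = a), f x * ((2 : ℝ) ^ a) ^ (-d) := sum_le_sum fun x hx => by
      obtain ⟨x1, x2⟩ := mem_filter.1 hx
      exact mul_le_mul_of_nonneg_left (Real.rpow_le_rpow_of_nonpos (by positivity)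
        (x2 ▸ (hc x x1).1) (by linarith)) (hf x x1)
    have h2 : ∑ x ∈ A.filter (fun x => c x = a), f x ≤ B * ((2 : ℝ) ^ (a + 1)) ^ e :=
      le_trans (sum_le_sum_of_subset_of_nonneg (fun x hx => by
        obtain ⟨x1, x2⟩ := mem_filter.1 hx
        exact mem_filter.2 ⟨x1, x2 ▸ (hc x x1).2.le⟩) fun x hx _ => hf x (mem_filter.1 hx).1)
        (h _ (one_le_pow₀ (by norm_num)))
    rw [← sum_mul] at h1
    refine h1.trans ((mul_le_mul_of_nonneg_right h2 (by positivity)).trans (le_of_eq ?_))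
    rw [← Real.rpow_natCast, ← Real.rpow_natCast 2 a, ← Real.rpow_natCast _ a,
      ← Real.rpow_mul (by norm_num), ← Real.rpow_mul (by norm_num), ← Real.rpow_mul (by norm_num),
      mul_assoc, mul_assoc, ← Real.rpow_add (by norm_num), ← Real.rpow_add (by norm_num)]
    congr 2
    push_cast
    ring
  rw [← sum_fiberwise_of_maps_to (s := A) (t := A.image c) (g := c)
    (fun j hj => mem_image_of_mem c hj)]
  have h5 : ∑ a ∈ A.image c, ((2 : ℝ) ^ (e - d)) ^ a ≤ (1 - 2 ^ (e - d))⁻¹ := by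
    rw [← tsum_geometric_of_lt_one hq0.le hq1]
    exact (summable_geometric_of_lt_one hq0.le hq1).sum_le_tsum _ fun a _ => by positivity
  refine (sum_le_sum fun a _ => cl a).trans ?_
  rw [← mul_sum, div_eq_mul_inv]
  exact mul_le_mul_of_nonneg_left h5 (by positivity)

/-- the constant of the overshoot weights -/
noncomputable def C3 (γ C0 C : ℝ) : ℝ := 17 * (C + 1) * C0 * 676 * 2 / (1 - 2 ^ (-(γ / 4)))

theorem one_le_C3 {γ C0 C : ℝ} (hγ : 0 < γ) (h0 : 1 ≤ C0) (hC : 0 ≤ C) : 1 ≤ C3 γ C0 C := by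
  have hq0 : (0 : ℝ) < 2 ^ (-(γ / 4)) := Real.rpow_pos_of_pos (by norm_num) _
  have hq1 : (2 : ℝ) ^ (-(γ / 4)) < 1 :=
    Real.rpow_lt_one_of_one_lt_of_neg (by norm_num) (by linarith)
  rw [C3, le_div_iff₀ (by linarith)]
  nlinarith

theorem Split.share {τ : ℕ → ℝ} {lo hi : ℕ} {th Λ : ℝ} {l r : ℕ → ℕ} {cl : ℕ → Prop}
    (h : Split τ lo hi (max 1 ⌊th⌋₊) Λ l r cl) (h1 : 1 ≤ th) (hN : th < (hi - lo : ℕ))
    {F : ℕ → ℕ → ℝ} {γ g C0 C : ℝ} (hF : ∀ i j, 0 ≤ F i j) (hM : MonoF F) (hγ : 0 < γ)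
    (hg : γ ≤ g) (hg2 : g ≤ 2) (h0 : 0 ≤ C0) (hC : 0 ≤ C) (hP : Ex.PW F g C0)
    (hL : Lac τ F (γ / 2) C) :
    ∑ x ∈ (Ico lo hi).filter (fun x => l x = x),
      (th / (r x - x : ℕ)) ^ (γ / 4) * (F x (r x) * ((r x - x : ℕ) : ℝ) ^ g) ≤
        C3 γ C0 C * (F lo hi * ((hi - lo : ℕ) : ℝ) ^ g) := by
  have q1 : 1 ≤ ⌊th⌋₊ := Nat.le_floor (by exact_mod_cast h1)
  rw [max_eq_right q1] at h
  set q := ⌊th⌋₊ with hq
  set N : ℝ := ((hi - lo : ℕ) : ℝ) with hN'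
  have t0 : 0 < th := by linarith
  have q2 : (q : ℝ) ≤ th := Nat.floor_le t0.le
  have q3 : th < q + 1 := Nat.lt_floor_add_one th
  have q4 : (1 : ℝ) ≤ q := by exact_mod_cast q1
  set A := (Ico lo hi).filter (fun x => l x = x) with hA
  have mA : ∀ x ∈ A, (1 : ℝ) ≤ (r x - x : ℕ) ∧ ((r x - x : ℕ) : ℝ) ≤ th := fun x hx => by
    obtain ⟨a1, a2⟩ := mem_filter.1 hx
    obtain ⟨a3, a4⟩ := mem_Ico.1 a1
    have b1 := h.part.lt_r x a3 a4
    have b2 := h.size x a3 a4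
    rw [a2] at b2
    exact ⟨by exact_mod_cast (by omega : 1 ≤ r x - x), le_trans (by exact_mod_cast b2) q2⟩
  set K : ℝ := C0 * (6 * (((hi - lo) / q + 1 : ℕ) : ℝ) + 1) ^ g * F lo hi with hK
  have K0 : 0 ≤ K := mul_nonneg (by positivity) (hF _ _)
  have dy := dyadic A (fun x => F x (r x)) (fun x => th / (r x - x : ℕ)) (fun x _ => hF _ _)
    (fun x hx => (one_le_div (by linarith [(mA x hx).1])).2 (mA x hx).2)
    (B := 17 * (C + 1) * K) (e := γ / 2) (d := g - γ / 4) (by positivity) (by positivity)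
    (by linarith) fun S hS => by
      have a1 := h.ovr F g C0 (γ / 2) C hF hM (by linarith) h0 (by positivity) hC hP hL S hS
      have a2 : (1 : ℝ) ≤ S ^ (γ / 2) := Real.one_le_rpow hS (by positivity)
      refine le_trans (sum_le_sum_of_subset_of_nonneg (fun x hx => ?_) fun x _ _ => hF _ _)
        (a1.trans ?_)
      · obtain ⟨b1, b2⟩ := mem_filter.1 hx
        rw [div_le_iff₀ (by linarith [(mA x b1).1])] at b2
        exact mem_filter.2 ⟨(mem_filter.1 b1).1, (mem_filter.1 b1).2, q2.trans b2⟩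
      · rw [← hK]
        nlinarith [mul_le_mul_of_nonneg_left a2 K0]
  have e1 : ∀ x ∈ A, (th / (r x - x : ℕ)) ^ (γ / 4) * (F x (r x) * ((r x - x : ℕ) : ℝ) ^ g) =
      th ^ g * (F x (r x) * (th / (r x - x : ℕ)) ^ (-(g - γ / 4))) := fun x hx => by
    have b1 : (0 : ℝ) < (r x - x : ℕ) := by linarith [(mA x hx).1]
    have b2 : (0 : ℝ) < ((r x - x : ℕ) : ℝ) ^ g := Real.rpow_pos_of_pos b1 _
    have b3 : (0 : ℝ) < th ^ g := Real.rpow_pos_of_pos t0 _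
    rw [neg_sub, Real.rpow_sub (div_pos t0 b1), Real.div_rpow t0.le b1.le g]
    field_simp
  rw [sum_congr rfl e1, ← mul_sum]
  refine (mul_le_mul_of_nonneg_left dy (by positivity)).trans ?_
  have hq1 : (2 : ℝ) ^ (-(γ / 4)) < 1 :=
    Real.rpow_lt_one_of_one_lt_of_neg (by norm_num) (by linarith)
  have hq2 : (2 : ℝ) ^ (γ / 2 - (g - γ / 4)) ≤ 2 ^ (-(γ / 4)) :=
    Real.rpow_le_rpow_of_exponent_le (by norm_num) (by linarith)
  have hq3 : (2 : ℝ) ^ (γ / 2) ≤ 2 := by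
    simpa using Real.rpow_le_rpow_of_exponent_le (x := 2) (by norm_num) (by linarith : γ / 2 ≤ 1)
  have k1 : th * (6 * (((hi - lo) / q + 1 : ℕ) : ℝ) + 1) ≤ 26 * N := by
    have b1 : (((hi - lo) / q : ℕ) : ℝ) * q ≤ N := by
      rw [hN']; exact_mod_cast Nat.div_mul_le_self (hi - lo) q
    have b2 : (0 : ℝ) ≤ ((hi - lo) / q : ℕ) := Nat.cast_nonneg _
    rw [Nat.cast_add, Nat.cast_one]
    nlinarith
  have k2 : th ^ g * (6 * (((hi - lo) / q + 1 : ℕ) : ℝ) + 1) ^ g ≤ 676 * N ^ g := by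
    rw [← Real.mul_rpow t0.le (by positivity)]
    refine (Real.rpow_le_rpow (by positivity) k1 (by linarith)).trans ?_
    rw [Real.mul_rpow (by norm_num) (by linarith)]
    refine mul_le_mul_of_nonneg_right ?_ (Real.rpow_nonneg (by linarith) _)
    have := Real.rpow_le_rpow_of_exponent_le (x := 26) (by norm_num) hg2
    norm_num at this
    exact this
  have k3 : th ^ g * K ≤ C0 * 676 * (F lo hi * N ^ g) := by
    have := mul_le_mul_of_nonneg_left k2 (mul_nonneg h0 (hF lo hi))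
    rw [hK]
    linarith
  have k4 : 0 ≤ th ^ g * K := by positivity
  calc th ^ g * (17 * (C + 1) * K * 2 ^ (γ / 2) / (1 - 2 ^ (γ / 2 - (g - γ / 4))))
      = 17 * (C + 1) * (th ^ g * K) * 2 ^ (γ / 2) / (1 - 2 ^ (γ / 2 - (g - γ / 4))) := by ring
    _ ≤ 17 * (C + 1) * (C0 * 676 * (F lo hi * N ^ g)) * 2 / (1 - 2 ^ (-(γ / 4))) := by
      have := k4.trans k3
      gcongr
    _ = _ := by rw [C3]; ring

end Pool.Agent.Lib.MP_d308c3_co.TT
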