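import Pool.Agent.Lib.MP_d308c3_co.TT.Lab
import Pool.Agent.Lib.MP_d308c3_co.TT.Piece

/-! One split of a window of atoms: separated classes, light slots, rare small children. -/

namespace Pool.Agent.Lib.MP_d308c3_co.TT

open Finset
open scoped Classical

/-- the children `[l i, r i]` of the window `[lo, hi]`; `cl i` says that the child is a class -/
structure Split (τ : ℕ → ℝ) (lo hi q : ℕ) (Λ : ℝ) (l r : ℕ → ℕ) (cl : ℕ → Prop) : Prop where
  part : Part lo hi l r
  cl_cons : ∀ i, lo ≤ i → i < hi → ∀ j, l i ≤ j → j < r i → (cl j ↔ cl i)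
  size : ∀ i, lo ≤ i → i < hi → r i - l i ≤ q
  half : ∀ i, lo ≤ i → i < hi → cl i ∨ 2 ≤ r i - l i → 2 * (τ (r i) - τ (l i)) ≤ τ hi - τ lo
  sep : ∀ i, lo ≤ i → i < hi → ∀ j, lo ≤ j → j < hi → cl i → cl j → r i ≤ l j →
    τ (r j) - τ (l i) ≤ Λ * (τ (l j) - τ (r i))
  ovr : ∀ (F : ℕ → ℕ → ℝ) (g C0 ε C : ℝ), (∀ i j, 0 ≤ F i j) → MonoF F → 0 ≤ g → 0 ≤ C0 →
    0 ≤ ε → 0 ≤ C → Ex.PW F g C0 → Lac τ F ε C → ∀ S : ℝ, 1 ≤ S →
    ∑ x ∈ (Ico lo hi).filter (fun x => l x = x ∧ (q : ℝ) ≤ S * (r x - x : ℕ)), F x (r x) ≤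
      17 * (C * S ^ ε + 1) * (C0 * (6 * (((hi - lo) / q + 1 : ℕ) : ℝ) + 1) ^ g * F lo hi)

theorem exists_split {τ : ℕ → ℝ} (hτ : StrictMono τ) (lo hi : ℕ) {q : ℕ} (hq : 1 ≤ q)
    (w : ℕ → ℝ) (hw : ∀ i, 0 ≤ w i) {L : ℕ} (hL : 1 ≤ L) :
    ∃ l r cl, Split τ lo hi q (72 * L) l r cl ∧
      (L : ℝ) * ∑ i ∈ (Ico lo hi).filter (fun i => ¬ cl i ∧ 2 ≤ r i - l i), w i ≤
        2 * ∑ i ∈ Ico lo hi, w i := by
  have L1 : (1 : ℝ) ≤ L := by exact_mod_cast hL
  let β : ℕ → ℕ := fun s => (s - lo) / q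
  let X := (Ico lo hi).filter fun s => (s - lo) % q ≠ 0
  let mk : ℕ → ℝ := fun a => τ (min (lo + a * q) hi)
  have mX : ∀ s, s ∈ X ↔ lo ≤ s ∧ s < hi ∧ (s - lo) % q ≠ 0 := fun s => by
    simp only [X, mem_filter, mem_Ico, and_assoc]
  have dm : ∀ s, lo ≤ s → s = lo + β s * q + (s - lo) % q ∧ (s - lo) % q < q := fun s h => by
    have h1 := Nat.div_add_mod (s - lo) q
    rw [mul_comm] at h1
    exact ⟨by simp only [β]; omega, Nat.mod_lt _ hq⟩
  have βm : ∀ s s', s ≤ s' → β s ≤ β s' := fun s s' h =>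
    Nat.div_le_div_right (Nat.sub_le_sub_right h lo)
  have mm : Monotone mk := fun a b h => hτ.monotone (min_le_min_right _
    (Nat.add_le_add_left (Nat.mul_le_mul_right q h) lo))
  have hb : ∀ s ∈ X, mk (β s) < τ s ∧ τ s < mk (β s + 1) := fun s hs => by
    obtain ⟨h1, h2, h3⟩ := (mX s).1 hs
    have h4 := dm s h1
    refine ⟨hτ ?_, hτ ?_⟩
    · omega
    · rw [add_mul, one_mul]; omega
  obtain ⟨sd, σ, k, Z1, Z2, lab, w1, w2⟩ := exists_lab X τ w (fun i _ => hw i) β mm hb hL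
  have bX : ∀ a b c, a ∈ X → c ∈ X → a ≤ b → b ≤ c → β a = β c → b ∈ X ∧ β b = β a := by
    intro a b c ha hc h1 h2 e
    obtain ⟨a1, _, a3⟩ := (mX a).1 ha
    obtain ⟨_, c2, _⟩ := (mX c).1 hc
    have e1 : β b = β a := le_antisymm (e ▸ βm _ _ h2) (βm _ _ h1)
    have d1 := dm a a1
    have d2 := dm b (a1.trans h1)
    rw [e1] at d2
    exact ⟨(mX b).2 ⟨by omega, by omega, by omega⟩, e1⟩
  have sX : ∀ a b c, a ∈ X → b ∈ X → c ∈ X → a ≤ b → b ≤ c → β b = β a → β a = β c →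
      sd a = sd c → sd b = sd a := by
    intro a b c ha hb' hc h1 h2 e1 e2 e3
    cases d : sd a
    · by_contra d'
      have := lab.side a ha b hb' e1.symm (hτ.monotone h1) (by simpa using d')
      rw [d] at this
      exact absurd this (by simp)
    · exact lab.side b hb' c hc (e1.trans e2) (hτ.monotone h2) (e3 ▸ d)
  have σe : ∀ a b, β a = β b → sd a = sd b → σ a = σ b := fun a b e1 e2 => by
    cases d : sd a
    · rw [lab.sigF a d, lab.sigF b (e2 ▸ d), e1]
    · rw [lab.sigT a d, lab.sigT b (e2 ▸ d), e1]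
  have ρT : ∀ a ∈ X, sd a = true → |τ a - σ a| = τ a - σ a ∧ σ a < τ a := fun a ha d => by
    rw [lab.sigT a d]; exact ⟨abs_of_pos (sub_pos.2 (hb a ha).1), (hb a ha).1⟩
  have ρF : ∀ a ∈ X, sd a = false → |τ a - σ a| = σ a - τ a ∧ τ a < σ a := fun a ha d => by
    rw [lab.sigF a d, abs_sub_comm]; exact ⟨abs_of_pos (sub_pos.2 (hb a ha).2), (hb a ha).2⟩
  have ρm : ∀ a ∈ X, ∀ b ∈ X, a ≤ b → β a = β b → sd a = sd b →
      (sd a = true → |τ a - σ a| ≤ |τ b - σ b|) ∧ (sd a = false → |τ b - σ b| ≤ |τ a - σ a|) := by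
    intro a ha b hb' h e1 e2
    have := hτ.monotone h
    exact ⟨fun d => by rw [(ρT a ha d).1, (ρT b hb' (e2 ▸ d)).1, σe a b e1 e2]; linarith,
      fun d => by rw [(ρF a ha d).1, (ρF b hb' (e2 ▸ d)).1, σe a b e1 e2]; linarith⟩
  let π' : ℕ → ℕ ⊕ (ℕ × Bool) := fun s => if s ∈ X then .inr (β s, sd s) else .inl s
  let π : ℕ → ℕ ⊕ (ℕ × Bool × ℤ × Prop × Prop) := fun s =>
    if s ∈ X then .inr (β s, sd s, k s, s ∈ Z1, s ∈ Z2) else .inl s
  have e' : ∀ a b, π' a = π' b ↔ a = b ∨ (a ∈ X ∧ b ∈ X ∧ β a = β b ∧ sd a = sd b) := by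
    intro a b
    by_cases h : a = b
    · simp [h]
    by_cases ha : a ∈ X <;> by_cases hb' : b ∈ X <;> simp [π', ha, hb', h]
  have e : ∀ a b, π a = π b ↔ a = b ∨ (a ∈ X ∧ b ∈ X ∧ β a = β b ∧ sd a = sd b ∧ k a = k b ∧
      (a ∈ Z1 ↔ b ∈ Z1) ∧ (a ∈ Z2 ↔ b ∈ Z2)) := by
    intro a b
    by_cases h : a = b
    · simp [h]
    by_cases ha : a ∈ X <;> by_cases hb' : b ∈ X <;> simp [π, ha, hb', h]
  have ee' : ∀ a b, π a = π b → π' a = π' b := fun a b h =>
    (e' a b).2 (((e a b).1 h).imp id fun h => ⟨h.1, h.2.1, h.2.2.1, h.2.2.2.1⟩)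
  have c' : ∀ a b c, lo ≤ a → a ≤ b → b ≤ c → c ≤ hi → π' a = π' c → π' b = π' a := by
    intro a b c _ h1 h2 _ h
    rcases (e' a c).1 h with h | ⟨ha, hc, e1, e2⟩
    · rw [show b = a by omega]
    · obtain ⟨hb', e3⟩ := bX a b c ha hc h1 h2 e1
      exact (e' b a).2 (.inr ⟨hb', ha, e3, sX a b c ha hb' hc h1 h2 e3 e1 e2⟩)
  have c : ∀ a b c, lo ≤ a → a ≤ b → b ≤ c → c ≤ hi → π a = π c → π b = π a := by
    intro a b c _ h1 h2 _ h
    rcases (e a c).1 h with h | ⟨ha, hc, e1, e2, e4, e5, e6⟩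
    · rw [show b = a by omega]
    obtain ⟨hb', e3⟩ := bX a b c ha hc h1 h2 e1
    have e7 := sX a b c ha hb' hc h1 h2 e3 e1 e2
    have m1 := ρm a ha b hb' h1 e3.symm e7.symm
    have m2 := ρm b hb' c hc h2 (e3.trans e1) (e7.trans e2)
    have z1 : b ∈ Z1 ↔ a ∈ Z1 :=
      ⟨fun z => lab.mid a ha b z e3.symm (hτ.monotone h1) (e7 ▸ lab.mid0 b z),
        fun z => lab.mid b hb' c (e5.1 z) (e3.trans e1) (hτ.monotone h2) (e7 ▸ lab.mid0 a z)⟩
    refine (e b a).2 (.inr ⟨hb', ha, e3, e7, ?_⟩)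
    cases d : sd a
    · have n1 := m1.2 d
      have n2 := m2.2 (e7 ▸ d)
      have e8 : k b = k a :=
        le_antisymm (lab.mono b hb' a ha n1) (e4 ▸ lab.mono c hc b hb' n2)
      exact ⟨e8, z1, fun z => e6.2 (lab.init c hc b hb' (e4 ▸ e8.symm) n2 z),
        fun z => lab.init b hb' a ha e8 n1 z⟩
    · have n1 := m1.1 d
      have n2 := m2.1 (e7 ▸ d)
      have e8 : k b = k a :=
        le_antisymm (e4 ▸ lab.mono b hb' c hc n2) (lab.mono a ha b hb' n1)
      exact ⟨e8, z1, fun z => lab.init a ha b hb' e8.symm n1 z,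
        fun z => lab.init b hb' c hc (e8.trans e4) n2 (e6.1 z)⟩
  obtain ⟨l, r, P, hP⟩ := exists_pieces π lo hi c
  obtain ⟨l', r', P', hP'⟩ := exists_pieces π' lo hi c'
  have ends : ∀ i, lo ≤ i → i < hi → π i = π (i + 1) → π (l i) = π i ∧ π (r i) = π i :=
    fun i h h' d => by
    have a1 := P.lo_le i h h'
    have a2 := P.l_le i h h'
    have a3 := P.lt_r i h h'
    have a4 := P.r_le i h h'
    exact ⟨((hP i h h').1 d _ a1 (by omega)).2 ⟨le_rfl, by omega⟩,
      ((hP i h h').1 d _ (by omega) a4).2 ⟨by omega, le_rfl⟩⟩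
  have ends' : ∀ i, lo ≤ i → i < hi → π' i = π' (i + 1) → π' (l' i) = π' i ∧ π' (r' i) = π' i :=
    fun i h h' d => by
    have a1 := P'.lo_le i h h'
    have a2 := P'.l_le i h h'
    have a3 := P'.lt_r i h h'
    have a4 := P'.r_le i h h'
    exact ⟨((hP' i h h').1 d _ a1 (by omega)).2 ⟨le_rfl, by omega⟩,
      ((hP' i h h').1 d _ (by omega) a4).2 ⟨by omega, le_rfl⟩⟩
  have lab2 : ∀ i, π i = π (i + 1) → ∀ s, π s = π i → s ∈ X ∧ i ∈ X ∧ β s = β i ∧ sd s = sd i ∧
      k s = k i ∧ (s ∈ Z1 ↔ i ∈ Z1) ∧ (s ∈ Z2 ↔ i ∈ Z2) := fun i d s d' => by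
    have hi' := (((e _ _).1 d).resolve_left (by omega)).1
    rcases (e _ _).1 d' with rfl | h
    · exact ⟨hi', hi', rfl, rfl, rfl, Iff.rfl, Iff.rfl⟩
    · exact h
  have lab2' : ∀ i, π' i = π' (i + 1) → ∀ s, π' s = π' i →
      s ∈ X ∧ i ∈ X ∧ β s = β i ∧ sd s = sd i := fun i d s d' => by
    have hi' := (((e' _ _).1 d).resolve_left (by omega)).1
    rcases (e' _ _).1 d' with rfl | h
    · exact ⟨hi', hi', rfl, rfl⟩
    · exact h
  have βq : ∀ a b, lo ≤ a → lo ≤ b → β a = β b → b - a ≤ q := fun a b h h' d => by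
    have d1 := dm a h
    have d2 := dm b h'
    rw [← d] at d2
    omega
  have two : ∀ i, lo ≤ i → i < hi → 2 ≤ r i - l i → π i = π (i + 1) := fun i h h' d => by
    by_contra d'
    have := (hP i h h').2 d'
    omega
  refine ⟨l, r, fun i => π i = π (i + 1) ∧ i ∉ Z1 ∧ i ∉ Z2, ⟨P, fun i h h' j a1 a2 => ?_,
    fun i h h' => ?_, fun i h h' d => ?_, fun i h h' j g g' ci cj d => ?_, ?_⟩, ?_⟩
  · by_cases d : π i = π (i + 1)
    · have b1 := P.lo_le i h h'
      have b2 := P.r_le i h h'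
      have b3 := ((hP i h h').1 d j (by omega) (by omega)).2 ⟨a1, a2.le⟩
      have b4 := ((hP i h h').1 d (j + 1) (by omega) (by omega)).2 ⟨by omega, a2⟩
      obtain ⟨_, _, _, _, _, b5, b6⟩ := lab2 i d j b3
      simp only [b3, b4, ← d, b5, b6]
    · have := (hP i h h').2 d
      rw [show j = i by omega]
  · by_cases d : π i = π (i + 1)
    · have b1 := P.lo_le i h h'
      have b2 := P.lt_r i h h'
      exact βq _ _ b1 (by omega)
        ((lab2 i d _ (ends i h h' d).1).2.2.1.trans (lab2 i d _ (ends i h h' d).2).2.2.1.symm)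
    · have := (hP i h h').2 d
      omega
  · have d' : π i = π (i + 1) := d.elim (fun d => d.1) (two i h h')
    obtain ⟨xl, _, l1, l2, l3, _⟩ := lab2 i d' _ (ends i h h' d').1
    obtain ⟨xr, _, r1, r2, r3, _⟩ := lab2 i d' _ (ends i h h' d').2
    have b1 := lab.same _ xl _ xr (l3.trans r3.symm)
    have b2 := lab.same _ xr _ xl (r3.trans l3.symm)
    have b3 := lab.rad _ xl
    have b4 := lab.rad _ xr
    have b5 := σe _ _ (l1.trans r1.symm) (l2.trans r2.symm)
    have b6 : ∀ a, mk (a + 1) - mk a ≤ τ hi - τ lo := fun a =>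
      sub_le_sub (hτ.monotone (min_le_right _ _)) (hτ.monotone (le_min (by omega) (by omega)))
    have b7 := b6 (β (l i))
    have b8 := b6 (β (r i))
    cases d2 : sd i
    · rw [(ρF _ xl (l2.trans d2)).1] at b1 b2 b3
      rw [(ρF _ xr (r2.trans d2)).1] at b1 b2 b4
      linarith
    · rw [(ρT _ xl (l2.trans d2)).1] at b1 b2 b3
      rw [(ρT _ xr (r2.trans d2)).1] at b1 b2 b4
      linarith
  · obtain ⟨xl, _, l1, l2, l3, _⟩ := lab2 i ci.1 _ (ends i h h' ci.1).1
    obtain ⟨xr, xi, r1, r2, r3, r4, r5⟩ := lab2 i ci.1 _ (ends i h h' ci.1).2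
    obtain ⟨yl, yj, m1, m2, m3, m4, m5⟩ := lab2 j cj.1 _ (ends j g g' cj.1).1
    obtain ⟨yr, _, s1, s2, s3, _⟩ := lab2 j cj.1 _ (ends j g g' cj.1).2
    have z1 : r i ∉ Z1 ∧ r i ∉ Z2 := ⟨fun z => ci.2.1 (r4.1 z), fun z => ci.2.2 (r5.1 z)⟩
    have z2 : l j ∉ Z1 ∧ l j ∉ Z2 := ⟨fun z => cj.2.1 (m4.1 z), fun z => cj.2.2 (m5.1 z)⟩
    have ne : (β (r i), sd (r i), k (r i)) ≠ (β (l j), sd (l j), k (l j)) := fun z => by
      simp only [Prod.mk.injEq] at z
      have a1 : π j = π i := (e _ _).2 (.inr ⟨yj, xi, m1.symm.trans (z.1.symm.trans r1),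
        m2.symm.trans (z.2.1.symm.trans r2), m3.symm.trans (z.2.2.symm.trans r3),
        iff_of_false cj.2.1 ci.2.1, iff_of_false cj.2.2 ci.2.2⟩)
      have a2 := ((hP i h h').1 ci.1 (j + 1) (by omega) (by omega)).1 (cj.1.symm.trans a1)
      have a3 := P.l_le j g g'
      omega
    obtain ⟨f1, f2⟩ := lab.far _ xr _ yl z1 z2 ne
    have f3 := (lab.far _ yl _ xr z2 z1 ne.symm).1
    have t1 := hτ.monotone d
    rw [abs_sub_comm (τ (r i)) (τ (l j))] at f1 f2
    rw [abs_of_nonneg (sub_nonneg.2 t1)] at f1 f2 f3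
    have b1 := lab.same _ xl _ xr (l3.trans r3.symm)
    have b2 := lab.same _ yr _ yl (s3.trans m3.symm)
    have b3 := σe _ _ (l1.trans r1.symm) (l2.trans r2.symm)
    have b4 := σe _ _ (s1.trans m1.symm) (s2.trans m2.symm)
    have b5 := neg_abs_le (τ (l i) - σ (l i))
    have b6 := le_abs_self (τ (r j) - σ (r j))
    have b7 := neg_abs_le (σ (r i) - σ (l j))
    linarith
  · intro F g C0 ε C hF hM g0 C00 ε0 C0' hPW hLac S S1
    set E := (hi - lo) / q + 1 with hE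
    have βE : ∀ x, x < hi → β x < E := fun x h =>
      Nat.lt_succ_of_le (Nat.div_le_div_right (Nat.sub_le_sub_right h.le lo))
    set A := (Ico lo hi).filter (fun x => l x = x ∧ (q : ℝ) ≤ S * (r x - x : ℕ)) with hA
    have mA : ∀ x ∈ A, lo ≤ x ∧ x < hi ∧ l x = x := fun x hx => by
      obtain ⟨a1, a2⟩ := mem_filter.1 hx
      exact ⟨(mem_Ico.1 a1).1, (mem_Ico.1 a1).2, a2.1⟩
    set B := C0 * (6 * (E : ℝ) + 1) ^ g * F lo hi with hB
    have few : ∀ (J : Finset ℕ) (ρ : ℕ → ℕ), Ex.Dis J (fun x => x) ρ lo hi → J.card ≤ 3 * E →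
        ∑ x ∈ J, F x (ρ x) ≤ B := fun J ρ hD hc => by
      refine (hPW.few0 hF g0 C00 hD).trans (mul_le_mul_of_nonneg_right
        (mul_le_mul_of_nonneg_left (Real.rpow_le_rpow (by positivity) ?_ g0) C00) (hF _ _))
      have : (J.card : ℝ) ≤ 3 * E := by exact_mod_cast hc
      linarith
    have s1 : ∑ x ∈ A.filter (fun x => ¬ π' x = π' (x + 1)), F x (r x) ≤ B := by
      refine few _ r (P.dis (fun x hx => mA x (mem_filter.1 hx).1) fun x hx =>
        ⟨(mA x (mem_filter.1 hx).1).1, P.r_le x (mA x (mem_filter.1 hx).1).1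
          (mA x (mem_filter.1 hx).1).2.1⟩) ?_
      let ty : ℕ → ℕ := fun x => if x ∈ X then (if x + 1 ∈ X then 2 else 1) else 0
      rw [show 3 * E = (range E ×ˢ range 3).card by rw [card_product, card_range, card_range,
        mul_comm]]
      have inj : ∀ x ∈ A.filter (fun x => ¬ π' x = π' (x + 1)),
          ∀ y ∈ A.filter (fun x => ¬ π' x = π' (x + 1)), x < y → β x = β y → ty x ≠ ty y := by
        intro x hx y hy hxy eβ ety
        obtain ⟨x1, x2, _⟩ := mA x (mem_filter.1 hx).1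
        obtain ⟨y1, y2, _⟩ := mA y (mem_filter.1 hy).1
        have nx := (mem_filter.1 hx).2
        have ny := (mem_filter.1 hy).2
        have d1 := dm x x1
        have d2 := dm y y1
        have d3 := dm (x + 1) (by omega)
        have d4 : β (x + 1) = β x := le_antisymm (eβ ▸ βm _ _ hxy) (βm _ _ (by omega))
        rw [← eβ] at d2
        rw [d4] at d3
        have yX : y ∈ X := (mX y).2 ⟨y1, y2, by omega⟩
        have x1X : x + 1 ∈ X := (mX _).2 ⟨by omega, by omega, by omega⟩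
        by_cases xX : x ∈ X
        · have y1X : y + 1 ∈ X := by
            by_contra z
            simp [ty, xX, x1X, yX, z] at ety
          have d5 : β (y + 1) = β y := by
            have f1 := dm (y + 1) (by omega)
            have f2 := dm y y1
            have f3 := ((mX _).1 y1X).2.2
            have f4 := βm y (y + 1) (by omega)
            by_contra z
            have f5 : (β y + 1) * q ≤ β (y + 1) * q := Nat.mul_le_mul_right q (by omega)
            rw [add_mul, one_mul] at f5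
            omega
          have n1 : sd x ≠ sd (x + 1) := fun z => nx ((e' _ _).2 (.inr ⟨xX, x1X, d4.symm, z⟩))
          have n2 : sd y ≠ sd (y + 1) := fun z => ny ((e' _ _).2 (.inr ⟨yX, y1X, d5.symm, z⟩))
          have n3 := lab.side x xX (x + 1) x1X d4.symm (hτ.monotone (by omega))
          have n4 := lab.side y yX (y + 1) y1X d5.symm (hτ.monotone (by omega))
          have n5 := lab.side (x + 1) x1X y yX (d4.trans eβ) (hτ.monotone hxy)
          revert n1 n2 n3 n4 n5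
          cases sd x <;> cases sd (x + 1) <;> cases sd y <;> cases sd (y + 1) <;> simp
        · simp only [ty, xX, yX, if_true, if_false] at ety
          split_ifs at ety <;> omega
      refine card_le_card_of_injOn (fun x => (β x, ty x)) (fun x hx => ?_) fun x hx y hy h => ?_
      · refine mem_coe.2 (mem_product.2 ⟨mem_range.2 (βE x (mA x (mem_filter.1 hx).1).2.1),
          mem_range.2 ?_⟩)
        simp only [ty]
        split_ifs <;> omega
      · simp only [Prod.mk.injEq] at h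
        rcases lt_trichotomy x y with d | d | d
        · exact absurd h.2 (inj x hx y hy d h.1)
        · exact d
        · exact absurd h.2.symm (inj y hy x hx d h.1.symm)
    let G := (Ico lo hi).filter fun x => l' x = x ∧ π' x = π' (x + 1)
    have mG : ∀ x ∈ G, lo ≤ x ∧ x < hi ∧ l' x = x := fun x hx => by
      obtain ⟨a1, a2⟩ := mem_filter.1 hx
      exact ⟨(mem_Ico.1 a1).1, (mem_Ico.1 a1).2, a2.1⟩
    have s2 : ∑ γ ∈ G, F γ (r' γ) ≤ B := by
      refine few _ r' (P'.dis mG fun x hx =>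
        ⟨(mG x hx).1, P'.r_le x (mG x hx).1 (mG x hx).2.1⟩) ?_
      refine le_trans (card_le_card_of_injOn (t := range E ×ˢ (univ : Finset Bool))
        (fun x => (β x, sd x)) (fun x hx => ?_) fun x hx y hy h => ?_) ?_
      · exact mem_coe.2 (mem_product.2 ⟨mem_range.2 (βE x (mG x hx).2.1), mem_univ _⟩)
      · simp only [Prod.mk.injEq] at h
        have a1 := (mem_filter.1 hx).2.2
        have a2 := (mem_filter.1 hy).2.2
        have a3 : π' y = π' x := (e' _ _).2 (.inr ⟨(lab2' y a2 y rfl).1, (lab2' x a1 x rfl).1,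
          h.1.symm, h.2.symm⟩)
        obtain ⟨x1, x2, x3⟩ := mG x hx
        obtain ⟨y1, y2, y3⟩ := mG y hy
        have a4 := (((hP' x x1 x2).1 a1 y y1 y2.le).1 a3).1
        have a5 := (((hP' y y1 y2).1 a2 x x1 x2.le).1 a3.symm).1
        omega
      · rw [card_product, card_range, card_univ, Fintype.card_bool]; omega
    have mp : ∀ x ∈ A.filter (fun x => π' x = π' (x + 1)), l' x ∈ G ∧ r' (l' x) = r' x ∧
        π' (l' x) = π' x ∧ r x ≤ r' x := fun x hx => by
      obtain ⟨x1, x2, _⟩ := mA x (mem_filter.1 hx).1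
      have d := (mem_filter.1 hx).2
      have a1 := P'.lo_le x x1 x2
      have a2 := P'.l_le x x1 x2
      have a3 := P'.lt_r x x1 x2
      have a4 := P'.cons x x1 x2 (l' x) le_rfl (by omega)
      have a5 := (ends' x x1 x2 d).1
      have a6 := ((hP' x x1 x2).1 d (l' x + 1) (by omega) (by omega)).2 ⟨by omega, by omega⟩
      refine ⟨mem_filter.2 ⟨mem_Ico.2 ⟨a1, by omega⟩, a4.1, a5.trans a6.symm⟩, a4.2, a5, ?_⟩
      have a7 := P.lt_r x x1 x2
      refine (((hP' x x1 x2).1 d (r x) (by omega) (P.r_le x x1 x2)).1 ?_).2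
      by_cases d' : π x = π (x + 1)
      · exact ee' _ _ (ends x x1 x2 d').2
      · rw [((hP x x1 x2).2 d').2, d]
    have s3 : ∀ γ ∈ G, ∑ x ∈ (A.filter fun x => π' x = π' (x + 1)).filter (fun x => l' x = γ),
        F x (r x) ≤ 16 * (C * S ^ ε + 1) * F γ (r' γ) := by
      intro γ hγ
      set D := (A.filter fun x => π' x = π' (x + 1)).filter (fun x => l' x = γ) with hD
      obtain ⟨γ1, γ2, γ3⟩ := mG γ hγ
      have γ4 := (mem_filter.1 hγ).2.2
      have mD : ∀ x ∈ D, (lo ≤ x ∧ x < hi ∧ l x = x) ∧ (γ ≤ x ∧ r x ≤ r' γ) ∧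
          x ∈ X ∧ β x = β γ ∧ sd x = sd γ := fun x hx => by
        obtain ⟨a1, a2⟩ := mem_filter.1 hx
        have a3 := mA x (mem_filter.1 a1).1
        obtain ⟨_, a4, a5, a6⟩ := mp x a1
        rw [a2] at a4 a5
        obtain ⟨b1, _, b2, b3⟩ := lab2' γ γ4 x a5.symm
        exact ⟨a3, ⟨a2 ▸ P'.l_le x a3.1 a3.2.1, a4 ▸ a6⟩, b1, b2, b3⟩
      have cD : (D.card : ℝ) ≤ S := by
        have a1 := (P.dis (fun x hx => (mD x hx).1) fun x hx => (mD x hx).2.1).sum_len
        have a2 : r' γ - γ ≤ q := βq _ _ γ1 (γ1.trans (P'.lt_r γ γ1 γ2).le)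
          (lab2' γ γ4 _ (ends' γ γ1 γ2 γ4).2).2.2.1.symm
        have a3 : ∑ x ∈ D, ((r x - x : ℕ) : ℝ) ≤ q := by exact_mod_cast a1.trans a2
        have a4 := card_nsmul_le_sum D (fun x => S * ((r x - x : ℕ) : ℝ)) q fun x hx =>
          (mem_filter.1 (mem_filter.1 (mem_filter.1 hx).1).1).2.2
        rw [← mul_sum, nsmul_eq_mul] at a4
        have q0 : (0 : ℝ) < q := by exact_mod_cast hq
        exact le_of_mul_le_mul_right
          (a4.trans (mul_le_mul_of_nonneg_left a3 (by linarith))) q0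
      let col : ℕ → Prop × Prop × Prop × Prop := fun x =>
        (x ∈ Z1, x ∈ Z2, π x = π (x + 1), k x % 2 = 0)
      rw [← sum_fiberwise D col]
      refine (sum_le_card_nsmul _ _ ((C * S ^ ε + 1) * F γ (r' γ)) fun κ _ => ?_).trans
        (le_of_eq ?_)
      · have kk : ∀ x ∈ D.filter (fun x => col x = κ), ∀ y ∈ D.filter (fun x => col x = κ),
            x < y → k x + 2 ≤ k y ∨ k y + 2 ≤ k x := by
          intro x hx y hy hxy
          obtain ⟨⟨x1, x2, x3⟩, _, x4, x5, x6⟩ := mD x (mem_filter.1 hx).1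
          obtain ⟨⟨y1, y2, y3⟩, _, y4, y5, y6⟩ := mD y (mem_filter.1 hy).1
          have a1 := (mem_filter.1 hx).2.trans (mem_filter.1 hy).2.symm
          simp only [col, Prod.mk.injEq, eq_iff_iff] at a1
          have a2 : k x ≠ k y := fun z => by
            have b1 : π x = π y := (e _ _).2 (.inr ⟨x4, y4, x5.trans y5.symm, x6.trans y6.symm,
              z, a1.1, a1.2.1⟩)
            have b2 : π x = π (x + 1) := (c x (x + 1) y x1 (by omega) hxy y2.le b1).symm
            have b3 := (((hP y y1 y2).1 (a1.2.2.1.1 b2) x x1 x2.le).1 b1).1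
            omega
          have a3 := a1.2.2.2
          omega
        refine (lac_sum hF hM hLac ε0 C0' (c := σ γ) (fun x hx => ?_) (fun x hx y hy d => ?_)
          ?_).trans (mul_le_mul_of_nonneg_right (add_le_add (mul_le_mul_of_nonneg_left
            (Real.rpow_le_rpow (Nat.cast_nonneg _) (le_trans ?_ cD) ε0) C0') le_rfl) (hF _ _))
        · obtain ⟨⟨x1, x2, _⟩, x3, _⟩ := mD x (mem_filter.1 hx).1
          have := P.lt_r x x1 x2
          exact ⟨x3.1, by omega, x3.2⟩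
        · exact P.r_le_of_lt (mD x (mem_filter.1 hx).1).1.1 d (mD y (mem_filter.1 hy).1).1.2.1
            (mD y (mem_filter.1 hy).1).1.2.2
        · cases d : sd γ
          · refine .inl ⟨fun x hx => ?_, fun x hx y hy hxy => ?_⟩
            · obtain ⟨_, _, x4, x5, x6⟩ := mD x (mem_filter.1 hx).1
              exact σe _ _ x5 x6 ▸ (ρF x x4 (x6.trans d)).2
            · obtain ⟨_, _, x4, x5, x6⟩ := mD x (mem_filter.1 hx).1
              obtain ⟨_, _, y4, y5, y6⟩ := mD y (mem_filter.1 hy).1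
              have a1 := lab.mono y y4 x x4 ((ρm x x4 y y4 hxy.le (x5.trans y5.symm)
                (x6.trans y6.symm)).2 (x6.trans d))
              have a2 := lab.lac x x4 y y4 (by have := kk x hx y hy hxy; omega)
              rwa [(ρF x x4 (x6.trans d)).1, (ρF y y4 (y6.trans d)).1, σe _ _ x5 x6,
                σe _ _ y5 y6] at a2
          · refine .inr ⟨fun x hx => ?_, fun x hx y hy hxy => ?_⟩
            · obtain ⟨_, _, x4, x5, x6⟩ := mD x (mem_filter.1 hx).1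
              exact σe _ _ x5 x6 ▸ (ρT x x4 (x6.trans d)).2
            · obtain ⟨_, _, x4, x5, x6⟩ := mD x (mem_filter.1 hx).1
              obtain ⟨_, _, y4, y5, y6⟩ := mD y (mem_filter.1 hy).1
              have a1 := lab.mono x x4 y y4 ((ρm x x4 y y4 hxy.le (x5.trans y5.symm)
                (x6.trans y6.symm)).1 (x6.trans d))
              have a2 := lab.lac y y4 x x4 (by have := kk x hx y hy hxy; omega)
              rwa [(ρT x x4 (x6.trans d)).1, (ρT y y4 (y6.trans d)).1, σe _ _ x5 x6,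
                σe _ _ y5 y6] at a2
        · exact_mod_cast card_filter_le _ _
      · simp only [card_univ, Fintype.card_prod, Fintype.card_prop, nsmul_eq_mul]
        push_cast
        ring
    have B0 : 0 ≤ B := mul_nonneg (by positivity) (hF _ _)
    have K0 : 0 ≤ C * S ^ ε := by positivity
    rw [← sum_filter_add_sum_filter_not A fun x => π' x = π' (x + 1),
      ← sum_fiberwise_of_maps_to fun x hx => (mp x hx).1]
    have s4 := sum_le_sum s3
    rw [← mul_sum] at s4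
    have s5 := mul_le_mul_of_nonneg_left s2 (by positivity : 0 ≤ 16 * (C * S ^ ε + 1))
    nlinarith
  · have h1 : (Ico lo hi).filter (fun i => ¬ (π i = π (i + 1) ∧ i ∉ Z1 ∧ i ∉ Z2) ∧
        2 ≤ r i - l i) ⊆ Z1 ∪ Z2 := fun i hi' => by
      obtain ⟨a1, a2, a3⟩ := mem_filter.1 hi'
      have := two i (mem_Ico.1 a1).1 (mem_Ico.1 a1).2 a3
      rw [mem_union]
      tauto
    have h2 := sum_le_sum_of_subset_of_nonneg h1 fun i _ _ => hw i
    have h3 : ∑ i ∈ Z1 ∪ Z2, w i ≤ ∑ i ∈ Z1, w i + ∑ i ∈ Z2, w i := by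
      rw [← sum_union_inter]
      linarith [sum_nonneg fun i (_ : i ∈ Z1 ∩ Z2) => hw i]
    have h4 : ∑ i ∈ X, w i ≤ ∑ i ∈ Ico lo hi, w i :=
      sum_le_sum_of_subset_of_nonneg (filter_subset _ _) fun i _ _ => hw i
    have h5 := mul_le_mul_of_nonneg_left (h2.trans h3) (by linarith : (0 : ℝ) ≤ L)
    convert (by linarith : (L : ℝ) * ∑ i ∈ (Ico lo hi).filter
      (fun i => ¬ (π i = π (i + 1) ∧ i ∉ Z1 ∧ i ∉ Z2) ∧ 2 ≤ r i - l i), w i ≤
        2 * ∑ i ∈ Ico lo hi, w i)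

end Pool.Agent.Lib.MP_d308c3_co.TT
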